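import Pool.Agent.W956.KF.OfCircuit2
import Pool.Agent.W946.KosCore

set_option autoImplicit false
set_option linter.unusedSectionVars false

/-!
# Rational preprocessing over infinite fields; the unconditional lower bound
-/

namespace Pool.Agent.W956.KF

open Finset Pool.Agent.H53R3 Pool.Agent.H522R2 Pool.Agent.H522R2.Circuit MvPolynomial

section

variable {F : Type} [Field F] {σ : Type} [DecidableEq σ]

/-- the variables as elements of the field of rational functions -/
noncomputable def gz (F : Type) [Field F] (σ : Type) (i : σ) :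
    FractionRing (MvPolynomial σ F) :=
  algebraMap (MvPolynomial σ F) (FractionRing (MvPolynomial σ F)) (X i)

omit [DecidableEq σ] in
theorem gz_aeval (G : MvPolynomial σ F) :
    aeval (gz F σ) G = algebraMap (MvPolynomial σ F) (FractionRing (MvPolynomial σ F)) G := by
  induction G using MvPolynomial.induction_on with
  | C a =>
    rw [aeval_C]
    rfl
  | add p q hp hq => rw [map_add, map_add, hp, hq]
  | mul_X p x hp => rw [map_mul, map_mul, hp, aeval_X]; rfl

omit [DecidableEq σ] in
theorem gz_indep : AlgebraicIndependent F (gz F σ) := by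
  rw [algebraicIndependent_iff]
  intro G hG
  rw [gz_aeval] at hG
  exact (IsFractionRing.injective (MvPolynomial σ F) (FractionRing (MvPolynomial σ F)))
    (by rw [hG, map_zero])

omit [DecidableEq σ] in
theorem evz_gz (x : RFt F σ) : evz (gz_indep (F := F) (σ := σ)) x = x := by
  have h : evz (gz_indep (F := F) (σ := σ)) = RingHom.id _ := by
    refine IsLocalization.ringHom_ext (nonZeroDivisors (MvPolynomial σ F)) ?_
    refine RingHom.ext fun p => ?_
    rw [RingHom.comp_apply, evz_algebraMap, gz_aeval]
    rfl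
  rw [h]
  rfl

/-- partial derivatives of rational functions -/
theorem exists_der_rat (F : Type) [Field F] (σ : Type) [DecidableEq σ] (i : σ) :
    ∃ D : FractionRing (MvPolynomial σ F) → FractionRing (MvPolynomial σ F), IsDer D ∧
      ∀ j, D (gz F σ j) = if j = i then 1 else 0 := by
  have hφ : ∀ x, (psi (gz_indep (F := F) (σ := σ)) i x).fst = x := fun x => by
    rw [fst_psi, evz_gz]
  refine ⟨fun x => (psi (gz_indep (F := F) (σ := σ)) i x).snd, ⟨fun a b => ?_, fun a b => ?_⟩,
    fun j => ?_⟩
  · simp only [map_add, TrivSqZeroExt.snd_add]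
  · simp only [map_mul, TrivSqZeroExt.snd_mul, hφ, smul_eq_mul, MulOpposite.smul_eq_mul_unop,
      MulOpposite.unop_op]
    ring
  · simp only [gz]
    rw [psi_algebraMap]
    by_cases h : j = i <;> simp [psi0, h]

end

section

variable {F : Type} [Field F] {m n p : ℕ}

/-- tensor rank does not drop under rational functions with coefficients in an infinite field -/
theorem rank_descend [Infinite F] {σ : Type} {r : ℕ}
    (h : RankLE (FractionRing (MvPolynomial σ F)) m n p r) : RankLE F m n p r := by
  classical
  obtain ⟨U, V, W, h⟩ := h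
  let R := MvPolynomial σ F
  let S : Finset (FractionRing R) :=
    (univ.image fun t : Fin r × Fin m × Fin n => U t.1 t.2.1 t.2.2) ∪
    (univ.image fun t : Fin r × Fin n × Fin p => V t.1 t.2.1 t.2.2) ∪
    (univ.image fun t : Fin r × Fin m × Fin p => W t.1 t.2.1 t.2.2)
  obtain ⟨d, hd⟩ := IsLocalization.exist_integer_multiples_of_finset (nonZeroDivisors R) S
  have hdU : ∀ l i j, ∃ u : R, algebraMap R (FractionRing R) u =
      algebraMap R (FractionRing R) d * U l i j := by
    intro l i j
    obtain ⟨u, hu⟩ := hd (U l i j) (by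
      simp only [S, mem_union, mem_image, mem_univ, true_and]
      exact Or.inl (Or.inl ⟨(l, i, j), rfl⟩))
    exact ⟨u, by rw [hu, Algebra.smul_def]⟩
  have hdV : ∀ l i j, ∃ u : R, algebraMap R (FractionRing R) u =
      algebraMap R (FractionRing R) d * V l i j := by
    intro l i j
    obtain ⟨u, hu⟩ := hd (V l i j) (by
      simp only [S, mem_union, mem_image, mem_univ, true_and]
      exact Or.inl (Or.inr ⟨(l, i, j), rfl⟩))
    exact ⟨u, by rw [hu, Algebra.smul_def]⟩
  have hdW : ∀ l i j, ∃ u : R, algebraMap R (FractionRing R) u =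
      algebraMap R (FractionRing R) d * W l i j := by
    intro l i j
    obtain ⟨u, hu⟩ := hd (W l i j) (by
      simp only [S, mem_union, mem_image, mem_univ, true_and]
      exact Or.inr ⟨(l, i, j), rfl⟩)
    exact ⟨u, by rw [hu, Algebra.smul_def]⟩
  choose u hu using hdU
  choose v hv using hdV
  choose w hw using hdW
  have hd0 : (d : R) ≠ 0 := nonZeroDivisors.ne_zero d.2
  obtain ⟨β, hβ⟩ : ∃ β : σ → F, eval β (d : R) ≠ 0 := by
    by_contra hcon
    push Not at hcon
    exact hd0 (MvPolynomial.funext fun x => by rw [hcon x, map_zero])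
  have key : ∀ i i' j j' k k', ∑ l, u l i j * v l j' k * w l i' k' =
      if i = i' ∧ j = j' ∧ k = k' then (d : R) ^ 3 else 0 := by
    intro i i' j j' k k'
    apply IsFractionRing.injective R (FractionRing R)
    rw [map_sum]
    simp only [map_mul, hu, hv, hw]
    have e : ∀ l, algebraMap R (FractionRing R) d * U l i j *
        (algebraMap R (FractionRing R) d * V l j' k) *
        (algebraMap R (FractionRing R) d * W l i' k') =
        algebraMap R (FractionRing R) d ^ 3 * (U l i j * V l j' k * W l i' k') := fun l => by ring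
    simp only [e]
    rw [← Finset.mul_sum, h]
    split_ifs
    · rw [mul_one, map_pow]
    · rw [mul_zero, map_zero]
  refine ⟨fun l => Matrix.of fun i j => eval β (u l i j) / eval β (d : R),
    fun l => Matrix.of fun i j => eval β (v l i j) / eval β (d : R),
    fun l => Matrix.of fun i j => eval β (w l i j) / eval β (d : R), fun i i' j j' k k' => ?_⟩
  have h1 := congrArg (eval β) (key i i' j j' k k')
  rw [map_sum] at h1
  simp only [map_mul] at h1
  have e : ∀ l, Matrix.of (fun i j => eval β (u l i j) / eval β (d : R)) i j *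
      Matrix.of (fun i j => eval β (v l i j) / eval β (d : R)) j' k *
      Matrix.of (fun i j => eval β (w l i j) / eval β (d : R)) i' k' =
      (eval β (d : R) ^ 3)⁻¹ *
        (eval β (u l i j) * eval β (v l j' k) * eval β (w l i' k')) := by
    intro l
    simp only [Matrix.of_apply]
    field_simp
  simp only [e]
  rw [← Finset.mul_sum, h1]
  split_ifs
  · rw [map_pow, inv_mul_cancel₀ (pow_ne_zero _ hβ)]
  · rw [map_zero, mul_zero]

theorem part_rat [Infinite F] (C : Circuit (FractionRing (MvPolynomial (Fin n × Fin p) F))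
    (Fin m × Fin n)) (hC : ComputesKnown C (generic F n p)) :
    RankLE F m n p (scalarCount C + 2 * C.nonscalarCount) := by
  classical
  choose D hD hDB using exists_der_rat F (Fin n × Fin p)
  have h := circuit_rank C (generic F n p) hC (fun j k => D (j, k)) (fun j k => hD (j, k)) ?_
    (fun t => ∃ x : Fin m × Fin n,
      (C.poly (opd C t.1 (!t.2))).coeff (Finsupp.single x 1) ≠ 0) ?_
  · exact rank_descend (h.mono (card_act_le C))
  · intro j k j' k'
    have := hDB (j, k) (j', k')
    simp only [Prod.mk.injEq] at this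
    exact this
  · intro t _ hnot
    right
    push Not at hnot
    exact hnot

theorem part_rat_form [Infinite F]
    (C : Circuit (FractionRing (MvPolynomial (Fin n × Fin p) F))
      ((Fin m × Fin n) ⊕ (Fin p × Fin m)))
    (hC : ∃ v : Fin C.nodes, C.poly v = form m (generic F n p)) :
    RankLE F m n p (2 * scalarCount C + 6 * C.nonscalarCount) := by
  classical
  choose D hD hDB using exists_der_rat F (Fin n × Fin p)
  refine rank_descend (circuit2_rank C (generic F n p) hC (fun j k => D (j, k))
    (fun j k => hD (j, k)) ?_)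
  intro j k j' k'
  have := hDB (j, k) (j', k')
  simp only [Prod.mk.injEq] at this
  exact this

end

section

open Pool.Agent.W946.Kos Pool.Agent.H88R3.MM

/-- The lower bound for the rank, from the bound for quadratic algorithms in
`Pool.Agent.W946.KosCore`. -/
theorem trank_lower (K : Type) [Field K] [Infinite K] {m q p : ℕ} (hqp : q * (p + 1) ≤ m) :
    m ^ 2 + (2 * p + 1) * m * q ≤ trank K m m m + q * (p + 1) * (2 * p + 1).choose p := by
  classical
  obtain ⟨U, V, W, h⟩ := rankLE_trank K m m m
  have hq : IsQuad (L := Fin (trank K m m m)) (K := K) (m := m)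
      (fun l x => match x with | .inl a => U l a.1 a.2 | .inr _ => 0)
      (fun l x => match x with | .inl _ => 0 | .inr b => V l b.1 b.2) W := by
    intro G
    have e : ∀ (a b : Fin m × Fin m), (∑ l, pr G (W l) * (U l a.1 a.2 * V l b.1 b.2)) =
        if a.2 = b.1 then G a.1 b.2 else 0 := by
      intro a b
      have e1 : ∀ l, pr G (W l) * (U l a.1 a.2 * V l b.1 b.2) =
          ∑ i, ∑ j, G i j * (U l a.1 a.2 * V l b.1 b.2 * W l i j) := by
        intro l
        unfold pr
        rw [Finset.sum_mul]
        refine Finset.sum_congr rfl fun i _ => ?_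
        rw [Finset.sum_mul]
        refine Finset.sum_congr rfl fun j _ => ?_
        ring
      simp only [e1]
      rw [Finset.sum_comm]
      have e2 : ∀ i, (∑ l, ∑ j, G i j * (U l a.1 a.2 * V l b.1 b.2 * W l i j)) =
          ∑ j, G i j * (if a.1 = i ∧ a.2 = b.1 ∧ b.2 = j then 1 else 0) := by
        intro i
        rw [Finset.sum_comm]
        refine Finset.sum_congr rfl fun j _ => ?_
        rw [← Finset.mul_sum, h]
      simp only [e2]
      rw [Finset.sum_eq_single a.1, Finset.sum_eq_single b.2]
      · simp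
      · intro j _ hj
        rw [if_neg (by rintro ⟨_, _, h3⟩; exact hj h3.symm), mul_zero]
      · simp
      · intro i _ hi
        refine Finset.sum_eq_zero fun j _ => ?_
        rw [if_neg (by rintro ⟨h1, _, _⟩; exact hi h1.symm), mul_zero]
      · simp
    ext x y
    rw [Matrix.sum_apply]
    simp only [Matrix.smul_apply, Matrix.add_apply, Matrix.vecMulVec_apply, smul_eq_mul]
    rcases x with a | b <;> rcases y with a' | b'
    · simp [symM]
    · simp only [symM, Matrix.of_apply, zero_mul, add_zero]
      exact (e a b').symm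
    · simp only [symM, Matrix.of_apply, zero_mul, zero_add]
      rw [← e a' b]
      exact Finset.sum_congr rfl fun l _ => by ring
    · simp [symM]
  have h2 := core hq q p hqp
  rw [Fintype.card_fin] at h2
  exact h2

/-- `(3 - o(1)) m ^ 2`, uniformly in the field -/
theorem trank_eventually (ε : ℝ) (hε : 0 < ε) : ∃ m₀ : ℕ, ∀ (K : Type) [Field K] [Infinite K]
    (m : ℕ), m₀ ≤ m → (3 - ε) * (m : ℝ) ^ 2 ≤ trank K m m m := by
  obtain ⟨p, hp⟩ := exists_nat_gt (2 / ε)
  obtain ⟨m₀, hm₀⟩ := exists_nat_gt ((2 * (p : ℝ) + 4 ^ p) * (2 / ε))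
  refine ⟨m₀, fun K _ _ m hm => ?_⟩
  have hdm := Nat.div_add_mod m (p + 1)
  have hmod := Nat.mod_lt m (show 0 < p + 1 by omega)
  set q := m / (p + 1) with hq
  have hqp : q * (p + 1) ≤ m := Nat.div_mul_le_self m (p + 1)
  have h1 := trank_lower K hqp
  have h2 : q * (p + 1) * (2 * p + 1).choose p ≤ m * 4 ^ p :=
    Nat.mul_le_mul hqp (Nat.choose_middle_le_pow p)
  have h3 : m ^ 2 + (2 * p + 1) * m * q ≤ trank K m m m + m * 4 ^ p := by omega
  have h4 : m ≤ q * (p + 1) + p := by
    have : (p + 1) * q = q * (p + 1) := mul_comm _ _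
    omega
  have h5 : (m : ℝ) ^ 2 + (2 * p + 1) * m * q ≤ trank K m m m + m * 4 ^ p := by
    exact_mod_cast h3
  have h6 : (m : ℝ) ≤ q * (p + 1) + p := by exact_mod_cast h4
  have hp' : (0 : ℝ) < (p : ℝ) + 1 := by positivity
  have hm0 : (0 : ℝ) ≤ m := by positivity
  have h7 : (2 - 1 / ((p : ℝ) + 1)) * (m : ℝ) ^ 2 ≤ (2 * p + 1) * m * q + 2 * p * m := by
    have e1 : (2 - 1 / ((p : ℝ) + 1)) * (m : ℝ) ^ 2 = ((2 * p + 1) * m ^ 2) / (p + 1) := by
      field_simp
      ring
    rw [e1, div_le_iff₀ hp']
    have h8 : (2 * (p : ℝ) + 1) * m * m ≤ (2 * p + 1) * m * (q * (p + 1) + p) :=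
      mul_le_mul_of_nonneg_left h6 (by positivity)
    have hp0 : (0 : ℝ) ≤ p := by positivity
    nlinarith [mul_nonneg hp0 hm0]
  have hm1 : (m₀ : ℝ) ≤ m := by exact_mod_cast hm
  have h8 : 1 / ((p : ℝ) + 1) ≤ ε / 2 := by
    rw [div_le_div_iff₀ (by positivity) (by norm_num)]
    rw [div_lt_iff₀ hε] at hp
    nlinarith
  have h9 : (2 * (p : ℝ) + 4 ^ p) ≤ (ε / 2) * m := by
    have h10 : (2 * (p : ℝ) + 4 ^ p) * (2 / ε) ≤ m := (hm₀.le).trans hm1
    have h11 : (ε / 2) * ((2 * (p : ℝ) + 4 ^ p) * (2 / ε)) = (2 * (p : ℝ) + 4 ^ p) := by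
      field_simp
    rw [← h11]
    exact mul_le_mul_of_nonneg_left h10 (by positivity)
  have h12 := mul_le_mul_of_nonneg_right h8 (sq_nonneg (m : ℝ))
  have h13 := mul_le_mul_of_nonneg_right h9 hm0
  nlinarith

end

end Pool.Agent.W956.KF
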