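import Pool.Agent.H522R2.Circuit

set_option autoImplicit false

/-!
# Matrix multiplication with a known factor: definitions
-/

namespace Pool.Agent.W956.KF

open Pool.Agent.H522R2 Pool.Agent.H522R2.Circuit

universe u v

/-- The tensor of the multiplication of `m × n` by `n × p` matrices over `K` is a sum of `r`
rank-one tensors. -/
def RankLE (K : Type u) [Field K] (m n p r : ℕ) : Prop :=
  ∃ (U : Fin r → Matrix (Fin m) (Fin n) K) (V : Fin r → Matrix (Fin n) (Fin p) K)
    (W : Fin r → Matrix (Fin m) (Fin p) K),
    ∀ (i i' : Fin m) (j j' : Fin n) (k k' : Fin p),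
      ∑ l, U l i j * V l j' k * W l i' k' = if i = i' ∧ j = j' ∧ k = k' then 1 else 0

/-- The rank of the tensor of the multiplication of `m × n` by `n × p` matrices over `K`. -/
noncomputable def trank (K : Type u) [Field K] (m n p : ℕ) : ℕ := sInf {r | RankLE K m n p r}

/-! ### The polynomials -/

section polys

variable {K : Type u} [Field K]

/-- The entry in row `i` and column `j` of the product of two generic `m × m` matrices; the
variables `inl (i, k)` are the entries of the first, `inr (k, j)` those of the second. -/
noncomputable def entryMM (K : Type u) [Field K] (m : ℕ) (i j : Fin m) :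
    MvPolynomial ((Fin m × Fin m) ⊕ (Fin m × Fin m)) K :=
  ∑ k : Fin m, MvPolynomial.X (Sum.inl (i, k)) * MvPolynomial.X (Sum.inr (k, j))

/-- The polynomial `∑ j, B j k * a_{ij}`: the entry in row `i` and column `k` of the product of the
generic matrix `(a_{ij})` with the constant matrix `B`. -/
noncomputable def target {m n p : ℕ} (B : Matrix (Fin n) (Fin p) K) (i : Fin m) (k : Fin p) :
    MvPolynomial (Fin m × Fin n) K :=
  ∑ j, MvPolynomial.C (B j k) * MvPolynomial.X (i, j)

/-- The bilinear form `∑ i j k, a_{ij} * B j k * c_{ki}`, the trace of `A B C`, where the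
`m × n` matrix `A = (a_{ij})` and the `p × m` matrix `C = (c_{ki})` consist of variables and `B` is a
constant `n × p` matrix. It is the sum over `i` of the values of the bilinear form with matrix `B` at
the `i`-th row of `A` and the `i`-th column of `C`. -/
noncomputable def form (m : ℕ) {n p : ℕ} (B : Matrix (Fin n) (Fin p) K) :
    MvPolynomial ((Fin m × Fin n) ⊕ (Fin p × Fin m)) K :=
  ∑ i, ∑ j, ∑ k, MvPolynomial.C (B j k) *
    (MvPolynomial.X (Sum.inl (i, j)) * MvPolynomial.X (Sum.inr (k, i)))

/-- The generic matrix over the field of rational functions in its entries. -/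
noncomputable def generic (F : Type) [Field F] (n p : ℕ) :
    Matrix (Fin n) (Fin p) (FractionRing (MvPolynomial (Fin n × Fin p) F)) :=
  Matrix.of fun j k => algebraMap (MvPolynomial (Fin n × Fin p) F)
    (FractionRing (MvPolynomial (Fin n × Fin p) F)) (MvPolynomial.X (j, k))

/-- an integer matrix as a matrix over `K` -/
def intMat (K : Type) [Field K] {n p : ℕ} (B : Matrix (Fin n) (Fin p) ℤ) :
    Matrix (Fin n) (Fin p) K :=
  B.map fun z => (z : K)

end polys

/-! ### Circuits -/

section circuits

variable {K : Type u} [Field K]

/-- The circuit has all entries of the product of two generic `m × m` matrices among the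
polynomials which it computes. -/
def ComputesMM {m : ℕ} (C : Circuit K ((Fin m × Fin m) ⊕ (Fin m × Fin m))) : Prop :=
  ∀ i j : Fin m, ∃ v : Fin C.nodes, C.poly v = entryMM K m i j

/-- The circuit has all entries of the product of the generic `m × n` matrix with the constant
matrix `B` among the polynomials which it computes. -/
def ComputesKnown {m n p : ℕ} (C : Circuit K (Fin m × Fin n)) (B : Matrix (Fin n) (Fin p) K) :
    Prop :=
  ∀ (i : Fin m) (k : Fin p), ∃ v : Fin C.nodes, C.poly v = target B i k

/-- the circuit computes the polynomial `form m B`, the trace of `A B C` -/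
def ComputesForm {m n p : ℕ}
    (C : Circuit K ((Fin m × Fin n) ⊕ (Fin p × Fin m))) (B : Matrix (Fin n) (Fin p) K) : Prop :=
  ∃ v : Fin C.nodes, C.poly v = form m B

/-- The first input (`b = false`) or the second input (`b = true`) of a gate. -/
def opd {V : Type v} (C : Circuit K V) (k : Fin C.nodes) (b : Bool) : Fin C.nodes :=
  match C.gate k with
  | .add i j => if b then C.up k j else C.up k i
  | .mul i j => if b then C.up k j else C.up k i
  | _ => k

/-- The number of scalar multiplications: multiplication gates for which exactly one of the two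
inputs computes a constant polynomial. -/
noncomputable def scalarCount {V : Type v} (C : Circuit K V) : ℕ :=
  Nat.card {g : Fin C.nodes // (∃ i j, C.gate g = Gate.mul i j) ∧
    ∃ b : Bool, (∃ c : K, C.poly (opd C g b) = MvPolynomial.C c) ∧
      ∀ c : K, C.poly (opd C g (!b)) ≠ MvPolynomial.C c}

/-- The number of live pairs over the subfield `k`: pairs of a multiplication gate and one of its
two inputs such that the constant term of this input is transcendental over `k` and the linear part
of the other input is not zero. -/
noncomputable def liveCount (k : Type v) [Field k] [Algebra k K] {V : Type v}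
    (C : Circuit K V) : ℕ :=
  Nat.card {t : Fin C.nodes × Bool // (∃ i j, C.gate t.1 = Gate.mul i j) ∧
    Transcendental k ((C.poly (opd C t.1 t.2)).coeff 0) ∧
      ∃ x : V, (C.poly (opd C t.1 (!t.2))).coeff (Finsupp.single x 1) ≠ 0}

end circuits

/-! ### Sizes -/

section sizes

/-- `S_K(MM_m)`: the least size of a circuit over `K` which computes the `m ^ 2` entries of the
product of two generic `m × m` matrices. -/
noncomputable def sizeMM (K : Type) [Field K] (m : ℕ) : ℕ :=
  sInf {s | ∃ C : Circuit K ((Fin m × Fin m) ⊕ (Fin m × Fin m)), ComputesMM C ∧ C.size = s}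

variable {K : Type} [Field K]

/-- The least size of a circuit over `K` which computes the entries of the product of the generic
`m × n` matrix with the constant matrix `B`. -/
noncomputable def sizeKnown (m : ℕ) {n p : ℕ} (B : Matrix (Fin n) (Fin p) K) : ℕ :=
  sInf {s | ∃ C : Circuit K (Fin m × Fin n), ComputesKnown C B ∧ C.size = s}

/-- The least size of a circuit over `K` which computes the single polynomial `form m B`. -/
noncomputable def sizeForm (m : ℕ) {n p : ℕ} (B : Matrix (Fin n) (Fin p) K) : ℕ :=
  sInf {s | ∃ C : Circuit K ((Fin m × Fin n) ⊕ (Fin p × Fin m)), ComputesForm C B ∧ C.size = s}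

/-- The growth exponent of a function. -/
noncomputable def growth (f : ℕ → ℕ) : ℝ :=
  sInf {τ : ℝ | ∃ D : ℝ, ∀ m : ℕ, (f m : ℝ) ≤ D * (m : ℝ) ^ τ}

/-- The exponent of matrix multiplication over `K`: the growth exponent of the rank. -/
noncomputable def omega (K : Type) [Field K] : ℝ := growth fun m => trank K m m m

/-- Superlinear growth, as a function of `n = m ^ 2`, in the sense of the question. -/
def Superlinear (f : ℕ → ℕ) : Prop :=
  ∃ α : ℝ, 1 < α ∧ ∃ c : ℝ, 0 < c ∧ ∀ m : ℕ, c * (((m : ℝ) ^ 2) ^ α) ≤ f m

end sizes

end Pool.Agent.W956.KF
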