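import Pool.Agent.H53R3.Der
import Pool.Agent.W956.KF.Defs

set_option autoImplicit false

/-!
# Straight-line computations modulo terms of degree two, and derivations of the constants
-/

namespace Pool.Agent.W956.KF

open Finset Pool.Agent.H53R3

universe u v w

theorem rankLE_of_fintype {K : Type u} [Field K] {m n p : ℕ} {T : Type v} [Fintype T]
    (U : T → Matrix (Fin m) (Fin n) K) (V : T → Matrix (Fin n) (Fin p) K)
    (W : T → Matrix (Fin m) (Fin p) K)
    (h : ∀ (i i' : Fin m) (j j' : Fin n) (k k' : Fin p),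
      ∑ l, U l i j * V l j' k * W l i' k' = if i = i' ∧ j = j' ∧ k = k' then 1 else 0) :
    RankLE K m n p (Fintype.card T) := by
  let e : Fin (Fintype.card T) ≃ T := (Fintype.equivFin T).symm
  refine ⟨fun l => U (e l), fun l => V (e l), fun l => W (e l), fun i i' j j' k k' => ?_⟩
  rw [← h i i' j j' k k']
  exact Equiv.sum_comp e (fun l => U l i j * V l j' k * W l i' k')

theorem RankLE.mono {K : Type u} [Field K] {m n p r s : ℕ} (h : RankLE K m n p r) (hrs : r ≤ s) :
    RankLE K m n p s := by
  obtain ⟨U, V, W, h⟩ := h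
  obtain ⟨t, rfl⟩ := Nat.exists_eq_add_of_le hrs
  refine ⟨Fin.append U 0, Fin.append V 0, Fin.append W 0, fun i i' j j' k k' => ?_⟩
  rw [Fin.sum_univ_add, ← h i i' j j' k k']
  simp

theorem rankLE_cube (K : Type u) [Field K] (m n p : ℕ) : RankLE K m n p (m * n * p) := by
  have h := rankLE_of_fintype (K := K) (m := m) (n := n) (p := p)
    (T := Fin m × Fin n × Fin p)
    (fun t => Matrix.of fun i j => if t.1 = i ∧ t.2.1 = j then 1 else 0)
    (fun t => Matrix.of fun j k => if t.2.1 = j ∧ t.2.2 = k then 1 else 0)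
    (fun t => Matrix.of fun i k => if t.1 = i ∧ t.2.2 = k then 1 else 0) ?_
  · simpa [mul_assoc] using h
  · intro i i' j j' k k'
    rw [Finset.sum_eq_single (i, j, k)]
    · by_cases h1 : i = i' <;> by_cases h2 : j = j' <;> by_cases h3 : k = k' <;>
        simp [h1, h2, h3]
    · rintro ⟨x, y, z⟩ - hne
      by_contra hc
      apply hne
      simp only [Matrix.of_apply, mul_ite, mul_one, mul_zero, ite_eq_right_iff, one_ne_zero,
        imp_false, not_not, not_forall, exists_prop] at hc
      obtain ⟨h3, h2, h1⟩ := hc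
      simp [h1.1, h1.2, h2.2]
    · simp

theorem trank_le {K : Type u} [Field K] {m n p r : ℕ} (h : RankLE K m n p r) :
    trank K m n p ≤ r := Nat.sInf_le h

theorem rankLE_trank (K : Type u) [Field K] (m n p : ℕ) : RankLE K m n p (trank K m n p) :=
  Nat.sInf_mem (s := {r | RankLE K m n p r}) ⟨_, rankLE_cube K m n p⟩

theorem trank_le_iff {K : Type u} [Field K] {m n p r : ℕ} :
    trank K m n p ≤ r ↔ RankLE K m n p r :=
  ⟨fun h => (rankLE_trank K m n p).mono h, trank_le⟩

/-- An operand: an earlier instruction, a variable, or a constant. -/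
abbrev Src (L : Type v) (X : Type w) := L ⊕ Option X

section

variable {K : Type u} [Field K] {L : Type v} {X : Type w}

/-- the constant term of an operand; `κ` is the value of the operand if it is a constant -/
def vc (κ : K) (c : L → K) : Src L X → K
  | .inl l => c l
  | .inr (some _) => 0
  | .inr none => κ

open Classical in
/-- the linear part of an operand -/
noncomputable def vl (ℓ : L → X → K) : Src L X → X → K
  | .inl l => ℓ l
  | .inr (some x) => Pi.single x 1
  | .inr none => 0

/-- Constant terms `c` and linear parts `ℓ` of the results of a straight-line computation with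
additions (`mu l = false`) and multiplications (`mu l = true`). -/
structure IsRun (mu : L → Bool) (s : L → Bool → Src L X) (κ : L → Bool → K) (c : L → K)
    (ℓ : L → X → K) : Prop where
  cadd : ∀ l, mu l = false →
    c l = vc (κ l false) c (s l false) + vc (κ l true) c (s l true)
  ladd : ∀ l x, mu l = false → ℓ l x = vl ℓ (s l false) x + vl ℓ (s l true) x
  cmul : ∀ l, mu l = true →
    c l = vc (κ l false) c (s l false) * vc (κ l true) c (s l true)
  lmul : ∀ l x, mu l = true → ℓ l x = vc (κ l false) c (s l false) * vl ℓ (s l true) x +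
    vc (κ l true) c (s l true) * vl ℓ (s l false) x

/-- the multiplications outside `Λ` contribute nothing to the derivative -/
def Dead (mu : L → Bool) (s : L → Bool → Src L X) (κ : L → Bool → K) (c : L → K)
    (ℓ : L → X → K) (Λ : Finset (L × Bool)) (D : K → K) : Prop :=
  ∀ l b, mu l = true → (l, b) ∉ Λ →
    D (vc (κ l b) c (s l b)) = 0 ∨ ∀ x, vl ℓ (s l (!b)) x = 0

theorem run_der [LinearOrder L] [WellFoundedLT L] {mu : L → Bool} {s : L → Bool → Src L X}
    {κ : L → Bool → K} {c : L → K} {ℓ : L → X → K} (h : IsRun mu s κ c ℓ)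
    (hs : ∀ l b l', s l b = Sum.inl l' → l' < l) (Λ : Finset (L × Bool)) (l : L) :
    ∃ w : L × Bool → K, ∀ D : K → K, IsDer D → Dead mu s κ c ℓ Λ D → ∀ x,
      D (ℓ l x) = ∑ t ∈ Λ, w t * (D (vc (κ t.1 t.2) c (s t.1 t.2)) * vl ℓ (s t.1 (!t.2)) x) := by
  classical
  induction l using WellFoundedLT.induction with
  | _ l ih =>
    have key : ∀ b, ∃ w : L × Bool → K, ∀ D : K → K, IsDer D → Dead mu s κ c ℓ Λ D → ∀ x,
        D (vl ℓ (s l b) x) =
          ∑ t ∈ Λ, w t * (D (vc (κ t.1 t.2) c (s t.1 t.2)) * vl ℓ (s t.1 (!t.2)) x) := by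
      intro b
      rcases hsb : s l b with l' | y
      · obtain ⟨w, hw⟩ := ih l' (hs l b l' hsb)
        exact ⟨w, fun D hD hdead x => hw D hD hdead x⟩
      · refine ⟨0, fun D hD _ x => ?_⟩
        simp only [Pi.zero_apply, zero_mul, Finset.sum_const_zero]
        cases y with
        | none => exact hD.zero
        | some y =>
          simp only [vl, Pi.single_apply]
          split_ifs
          · exact hD.one
          · exact hD.zero
    obtain ⟨w0, h0⟩ := key false
    obtain ⟨w1, h1⟩ := key true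
    rcases hmu : mu l with _ | _
    · refine ⟨fun t => w0 t + w1 t, fun D hD hdead x => ?_⟩
      rw [h.ladd l x hmu, hD.add, h0 D hD hdead x, h1 D hD hdead x, ← Finset.sum_add_distrib]
      exact Finset.sum_congr rfl fun t _ => by ring
    · refine ⟨fun t => vc (κ l false) c (s l false) * w1 t + vc (κ l true) c (s l true) * w0 t +
        ((if (l, false) = t then 1 else 0) + (if (l, true) = t then 1 else 0)),
        fun D hD hdead x => ?_⟩
      have e : ∀ b, (∑ t ∈ Λ, (if (l, b) = t then (1 : K) else 0) *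
          (D (vc (κ t.1 t.2) c (s t.1 t.2)) * vl ℓ (s t.1 (!t.2)) x)) =
          D (vc (κ l b) c (s l b)) * vl ℓ (s l (!b)) x := by
        intro b
        simp only [ite_mul, one_mul, zero_mul, Finset.sum_ite_eq]
        split_ifs with hb
        · rfl
        · rcases hdead l b hmu hb with h2 | h2
          · rw [h2, zero_mul]
          · rw [h2, mul_zero]
      rw [h.lmul l x hmu, hD.add, hD.mul, hD.mul, h0 D hD hdead x, h1 D hD hdead x]
      simp only [add_mul, Finset.sum_add_distrib, e, Finset.mul_sum, Bool.not_false,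
        Bool.not_true, mul_assoc]
      ring

/-- **The rank bound.** -/
theorem run_rank {m n p : ℕ} [LinearOrder L] [WellFoundedLT L] {mu : L → Bool}
    {s : L → Bool → Src L (Fin m × Fin n)}
    {κ : L → Bool → K} {c : L → K} {ℓ : L → Fin m × Fin n → K} (h : IsRun mu s κ c ℓ)
    (hs : ∀ l b l', s l b = Sum.inl l' → l' < l) (Λ : Finset (L × Bool))
    (B : Matrix (Fin n) (Fin p) K) (D : Fin n → Fin p → K → K) (hD : ∀ j k, IsDer (D j k))
    (hDB : ∀ j k j' k', D j k (B j' k') = if j' = j ∧ k' = k then 1 else 0)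
    (hdead : ∀ j k, Dead mu s κ c ℓ Λ (D j k))
    (hout : ∀ (i : Fin m) (k : Fin p),
      (∃ l, ∀ x : Fin m × Fin n, ℓ l x = if x.1 = i then B x.2 k else 0) ∨
        ∀ j : Fin n, B j k = 0 ∨ B j k = 1) :
    RankLE K m n p Λ.card := by
  classical
  have key : ∀ (i : Fin m) (k : Fin p), ∃ w : L × Bool → K, ∀ (j' : Fin n) (k' : Fin p)
      (x : Fin m × Fin n), D j' k' (if x.1 = i then B x.2 k else 0) =
        ∑ t ∈ Λ, w t * (D j' k' (vc (κ t.1 t.2) c (s t.1 t.2)) * vl ℓ (s t.1 (!t.2)) x) := by
    intro i k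
    rcases hout i k with ⟨l, hl⟩ | h01
    · obtain ⟨w, hw⟩ := run_der h hs Λ l
      refine ⟨w, fun j' k' x => ?_⟩
      rw [← hl x]
      exact hw _ (hD j' k') (hdead j' k') x
    · refine ⟨0, fun j' k' x => ?_⟩
      simp only [Pi.zero_apply, zero_mul, Finset.sum_const_zero]
      split_ifs
      · rcases h01 x.2 with h2 | h2
        · rw [h2]; exact (hD j' k').zero
        · rw [h2]; exact (hD j' k').one
      · exact (hD j' k').zero
  choose w hw using key
  have h2 := rankLE_of_fintype (K := K) (m := m) (n := n) (p := p) (T := Λ)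
    (fun t => Matrix.of fun i j => vl ℓ (s t.1.1 (!t.1.2)) (i, j))
    (fun t => Matrix.of fun j k => D j k (vc (κ t.1.1 t.1.2) c (s t.1.1 t.1.2)))
    (fun t => Matrix.of fun i k => w i k t.1) ?_
  · simpa using h2
  · intro i i' j j' k k'
    simp only [Matrix.of_apply]
    have h3 := hw i' k' j' k (i, j)
    rw [← Finset.sum_coe_sort Λ (fun t => w i' k' t * (D j' k (vc (κ t.1 t.2) c (s t.1 t.2)) *
      vl ℓ (s t.1 (!t.2)) (i, j)))] at h3
    rw [Finset.sum_congr rfl fun t _ => show
      vl ℓ (s t.1.1 (!t.1.2)) (i, j) * D j' k (vc (κ t.1.1 t.1.2) c (s t.1.1 t.1.2)) * w i' k' t.1 =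
      w i' k' t.1 * (D j' k (vc (κ t.1.1 t.1.2) c (s t.1.1 t.1.2)) *
        vl ℓ (s t.1.1 (!t.1.2)) (i, j)) by ring, ← h3]
    simp only
    by_cases hi : i = i'
    · rw [if_pos hi, hDB]
      refine if_congr ?_ rfl rfl
      constructor
      · rintro ⟨h4, h5⟩
        exact ⟨hi, h4, h5.symm⟩
      · rintro ⟨_, h4, h5⟩
        exact ⟨h4, h5.symm⟩
    · rw [if_neg hi, if_neg fun hc => hi hc.1]
      exact (hD j' k).zero

end

end Pool.Agent.W956.KF
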