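import Pool.Agent.W956.KF.Sizes
import Pool.Agent.H826R3.SM.Rank
import Pool.Agent.H88R3.MM.Power

set_option autoImplicit false
set_option linter.unusedSectionVars false

/-!
# Growth of the circuit size and of the rank
-/

namespace Pool.Agent.W956.KF

open Finset Filter Pool.Agent.H826R3.SM

variable (K : Type) [Field K]

theorem rankLE_iff_hasRank (n r : ℕ) : RankLE K n n n r ↔ HasRank K n r := by
  constructor
  · rintro ⟨U, V, W, h⟩
    refine ⟨fun t i j => U t i j, fun t j k => V t j k, fun t k i => W t i k, ?_⟩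
    intro i j j' k k' l
    rw [h i l j j' k k']
    refine if_congr ?_ rfl rfl
    constructor
    · rintro ⟨rfl, rfl, rfl⟩
      exact ⟨rfl, rfl, rfl⟩
    · rintro ⟨rfl, rfl, rfl⟩
      exact ⟨rfl, rfl, rfl⟩
  · rintro ⟨a, b, c, h⟩
    refine ⟨fun t i j => a t i j, fun t j k => b t j k, fun t i k => c t k i, ?_⟩
    intro i i' j j' k k'
    rw [← h i j j' k k' i']
    refine if_congr ?_ rfl rfl
    constructor
    · rintro ⟨rfl, rfl, rfl⟩
      exact ⟨rfl, rfl, rfl⟩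
    · rintro ⟨rfl, rfl, rfl⟩
      exact ⟨rfl, rfl, rfl⟩

theorem trank_eq_rk (n : ℕ) : trank K n n n = rk K n := by
  unfold trank rk
  congr 1
  ext r
  exact rankLE_iff_hasRank K n r

theorem omega_eq : omega K = omegaMM K := by
  unfold omega growth omegaMM
  simp only [trank_eq_rk]

theorem sq_le_trank (m : ℕ) : m ^ 2 ≤ trank K m m m := by
  obtain ⟨U, V, W, h⟩ := rankLE_trank K m m m
  have h1 : Pool.Agent.H88R3.MM.IsAlg U V W :=
    Pool.Agent.H88R3.MM.isAlg_of_coeff fun i i' j j' k k' => h i i' j j' k k'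
  have h2 := h1.card_le_U
  have h3 : ∑ l, (U l).rank ≤ trank K m m m * m := by
    refine (Finset.sum_le_card_nsmul univ _ m fun l _ => ?_).trans ?_
    · exact (Matrix.rank_le_width (U l))
    · simp
  simp only [Fintype.card_fin] at h2
  rcases Nat.eq_zero_or_pos m with hm | hm
  · subst hm
    simp
  · have h4 : m ^ 2 * m ≤ trank K m m m * m := by
      refine le_trans (le_of_eq (by ring)) (h2.trans h3)
    exact Nat.le_of_mul_le_mul_right h4 hm

theorem rpow_omega_le (m : ℕ) (hm : 1 ≤ m) : (m : ℝ) ^ omegaMM K ≤ trank K m m m := by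
  rw [trank_eq_rk]
  obtain ⟨a, b, c, h⟩ := hasRank_rk (F := K) m
  have hAD : AD K (Fin m) (Fin (rk K m)) 0 := by
    refine ⟨fun t i j => Polynomial.C (a t i j), fun t i j => Polynomial.C (b t i j),
      fun t i j => Polynomial.C (c t i j),
      fun i j j' k k' l => Polynomial.C (if j = j' ∧ k = k' ∧ l = i then (1 : K) else 0), ?_⟩
    intro i j j' k k' l
    refine ⟨?_, by simp only [Polynomial.eval_C]⟩
    simp only
    rw [h i j j' k k' l]
    simp only [map_sum, map_mul, pow_zero, one_mul]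
  exact hAD.omega_le hm

variable {K}

theorem sizeMM_zero : sizeMM K 0 = 0 := by
  refine Nat.le_zero.1 (sizeMM_le (Cost.of_subset ?_ _))
  rintro _ ⟨⟨i, _⟩, rfl⟩
  exact i.elim0

/-- Strassen's recursion from one tensor decomposition -/
theorem sizeMM_bound {q : ℕ} (hq : 2 ≤ q) (τ : ℝ) (hτ : (trank K q q q : ℝ) < (q : ℝ) ^ τ) :
    ∃ C : ℝ, ∀ m : ℕ, (sizeMM K m : ℝ) ≤ C * (m : ℝ) ^ τ := by
  set r := trank K q q q with hr0
  have hqr : q ^ 2 ≤ r := sq_le_trank K q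
  have hr : 1 ≤ r := le_trans (Nat.one_le_pow _ _ (by omega)) hqr
  have hr' : (1 : ℝ) ≤ r := by exact_mod_cast hr
  have hq1 : (1 : ℝ) < q := by exact_mod_cast (by omega : 1 < q)
  have hq0 : (0 : ℝ) < q := by linarith
  have hτ0 : 0 < τ := by
    by_contra hcon
    have := Real.rpow_le_one_of_one_le_of_nonpos hq1.le (not_lt.mp hcon)
    linarith
  set ρ : ℝ := (q : ℝ) ^ τ with hρ
  have hρ0 : 0 < ρ := Real.rpow_pos_of_pos hq0 _
  obtain ⟨C, hC0, hC⟩ := bounded_aux (6 * q ^ 2) (r / ρ) (by positivity)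
    (by rwa [div_lt_one hρ0])
  refine ⟨C * ρ, fun n => ?_⟩
  rcases Nat.eq_zero_or_pos n with hn | hn
  · subst hn
    rw [sizeMM_zero]
    simp [Real.zero_rpow hτ0.ne']
  · set N := Nat.clog q n with hN
    have h1 : n ≤ q ^ N := Nat.le_pow_clog (by omega) n
    have h2 : q ^ N ≤ q * n := by
      rcases Nat.eq_zero_or_pos N with hz | hz
      · rw [hz, pow_zero]
        exact Nat.succ_le_of_lt (Nat.mul_pos (by omega) hn)
      · have hn2 : 1 < n := by
          by_contra hcon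
          have : n = 1 := by omega
          rw [this, Nat.clog_one_right] at hN
          omega
        have := Nat.pow_pred_clog_lt_self (b := q) (by omega) hn2
        rw [← hN] at this
        calc q ^ N = q * q ^ (N - 1) := by
              rw [← pow_succ']; congr 1; omega
          _ ≤ q * n := Nat.mul_le_mul_left _ this.le
    have h3 : (sizeMM K n : ℝ) ≤ (r : ℝ) ^ N * ((N : ℝ) * ((6 * q ^ 2 : ℕ) : ℝ) + 1) ^ 2 := by
      have h5 := sizeMM_le (cost_outMM (costMM_of_le (rankLE_trank K q q q) hqr N n h1))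
      have h6 : (1 + 6 * q ^ 2 * N) * r ^ N ≤ r ^ N * (N * (6 * q ^ 2) + 1) ^ 2 := by
        rw [mul_comm]
        refine Nat.mul_le_mul_left _ ?_
        calc 1 + 6 * q ^ 2 * N = (N * (6 * q ^ 2) + 1) := by ring
          _ ≤ (N * (6 * q ^ 2) + 1) ^ 2 := Nat.le_self_pow (by norm_num) _
      exact_mod_cast h5.trans h6
    have h4 : (r : ℝ) ^ N * ((N : ℝ) * ((6 * q ^ 2 : ℕ) : ℝ) + 1) ^ 2 ≤ C * ρ ^ N := by
      have := hC N
      rw [div_pow] at this
      have hp : 0 < ρ ^ N := pow_pos hρ0 N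
      calc (r : ℝ) ^ N * ((N : ℝ) * ((6 * q ^ 2 : ℕ) : ℝ) + 1) ^ 2
          = (((N : ℝ) * ((6 * q ^ 2 : ℕ) : ℝ) + 1) ^ 2 * ((r : ℝ) ^ N / ρ ^ N)) * ρ ^ N := by
            field_simp
        _ ≤ C * ρ ^ N := mul_le_mul_of_nonneg_right this hp.le
    have h5 : ρ ^ N ≤ ρ * (n : ℝ) ^ τ := by
      have e1 : ρ ^ N = ((q : ℝ) ^ N) ^ τ := by
        rw [hρ, ← Real.rpow_natCast ((q : ℝ) ^ τ) N, ← Real.rpow_mul hq0.le,
          ← Real.rpow_natCast (q : ℝ) N, ← Real.rpow_mul hq0.le, mul_comm]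
      rw [e1, hρ, ← Real.mul_rpow hq0.le (Nat.cast_nonneg n)]
      apply Real.rpow_le_rpow (by positivity) _ hτ0.le
      exact_mod_cast h2
    calc (sizeMM K n : ℝ) ≤ _ := h3
      _ ≤ C * ρ ^ N := h4
      _ ≤ C * (ρ * (n : ℝ) ^ τ) := mul_le_mul_of_nonneg_left h5 hC0
      _ = C * ρ * (n : ℝ) ^ τ := by ring

/-- for every exponent above `ω` -/
theorem sizeMM_upper {τ : ℝ} (hτ : omegaMM K < τ) :
    ∃ C : ℝ, ∀ m : ℕ, (sizeMM K m : ℝ) ≤ C * (m : ℝ) ^ τ := by
  obtain ⟨τ', ⟨D, hD⟩, hττ⟩ := exists_lt_of_csInf_lt (omega_set_nonempty (F := K)) hτ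
  -- a large `q`
  have hlim : Tendsto (fun q : ℕ => (q : ℝ) ^ (τ - τ')) atTop atTop :=
    (tendsto_rpow_atTop (by linarith)).comp tendsto_natCast_atTop_atTop
  obtain ⟨q, hq1, hq2⟩ := ((hlim.eventually_gt_atTop D).and (eventually_ge_atTop 2)).exists
  refine sizeMM_bound hq2 τ ?_
  rw [trank_eq_rk]
  have hq0 : (0 : ℝ) < q := by exact_mod_cast (by omega : 0 < q)
  calc (rk K q : ℝ) ≤ D * (q : ℝ) ^ τ' := hD q
    _ < (q : ℝ) ^ (τ - τ') * (q : ℝ) ^ τ' :=
        mul_lt_mul_of_pos_right hq1 (Real.rpow_pos_of_pos hq0 _)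
    _ = (q : ℝ) ^ τ := by
        rw [← Real.rpow_add hq0]
        congr 1
        ring

/-- lower bounds transfer along infinitely many `m` -/
theorem omega_le_of_infinite {f : ℕ → ℕ} {c : ℕ} (hf : ∀ m, trank K m m m ≤ c * f m) {τ D : ℝ}
    (h : {m : ℕ | (f m : ℝ) ≤ D * (m : ℝ) ^ τ}.Infinite) : omegaMM K ≤ τ := by
  by_contra hcon
  push Not at hcon
  have hlim : Tendsto (fun q : ℕ => (q : ℝ) ^ (omegaMM K - τ)) atTop atTop :=
    (tendsto_rpow_atTop (by linarith)).comp tendsto_natCast_atTop_atTop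
  obtain ⟨N, hN⟩ := (hlim.eventually_gt_atTop (c * D)).exists_forall_of_atTop
  obtain ⟨m, hm, hmN⟩ := h.exists_gt (max N 1)
  have hm1 : 1 ≤ m := le_trans (le_max_right _ _) hmN.le
  have hm0 : (0 : ℝ) < m := by exact_mod_cast hm1
  have h1 := rpow_omega_le K m hm1
  have h2 : (trank K m m m : ℝ) ≤ c * f m := by exact_mod_cast hf m
  have h3 : (c : ℝ) * f m ≤ c * (D * (m : ℝ) ^ τ) :=
    mul_le_mul_of_nonneg_left hm (Nat.cast_nonneg _)
  have h4 : (m : ℝ) ^ (omegaMM K - τ) * (m : ℝ) ^ τ = (m : ℝ) ^ omegaMM K := by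
    rw [← Real.rpow_add hm0]
    congr 1
    ring
  have h5 : (c : ℝ) * D < (m : ℝ) ^ (omegaMM K - τ) :=
    hN m (le_trans (le_max_left _ _) hmN.le)
  have h6 : (c : ℝ) * D * (m : ℝ) ^ τ < (m : ℝ) ^ (omegaMM K - τ) * (m : ℝ) ^ τ :=
    mul_lt_mul_of_pos_right h5 (Real.rpow_pos_of_pos hm0 _)
  rw [h4] at h6
  linarith [mul_assoc (c : ℝ) D ((m : ℝ) ^ τ)]

theorem growth_eq {f : ℕ → ℕ} {c : ℕ} (hf : ∀ m, trank K m m m ≤ c * f m)
    (hup : ∀ τ, omegaMM K < τ → ∃ D : ℝ, ∀ m : ℕ, (f m : ℝ) ≤ D * (m : ℝ) ^ τ) :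
    growth f = omegaMM K := by
  have hlow : ∀ τ ∈ {τ : ℝ | ∃ D : ℝ, ∀ m : ℕ, (f m : ℝ) ≤ D * (m : ℝ) ^ τ},
      omegaMM K ≤ τ := by
    rintro τ ⟨D, hD⟩
    refine omega_le_of_infinite hf (τ := τ) (D := D) ?_
    rw [show {m : ℕ | (f m : ℝ) ≤ D * (m : ℝ) ^ τ} = Set.univ from
      Set.eq_univ_of_forall hD]
    exact Set.infinite_univ
  apply le_antisymm
  · refine le_of_forall_pos_le_add fun ε hε => ?_
    exact csInf_le ⟨omegaMM K, hlow⟩ (hup _ (by linarith))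
  · refine le_csInf ?_ hlow
    exact ⟨_, hup _ (lt_add_one _)⟩

theorem superlinear_iff {f : ℕ → ℕ} {c : ℕ} (hc : 0 < c) (hf : ∀ m, trank K m m m ≤ c * f m)
    (hup : ∀ τ, omegaMM K < τ → ∃ D : ℝ, ∀ m : ℕ, (f m : ℝ) ≤ D * (m : ℝ) ^ τ) :
    Superlinear f ↔ 2 < omegaMM K := by
  constructor
  · rintro ⟨α, hα, a, ha, h⟩
    by_contra hcon
    push Not at hcon
    -- choose an exponent between `ω` and `2 α`
    obtain ⟨D, hD⟩ := hup (1 + α) (by linarith)
    have hlim : Tendsto (fun q : ℕ => (q : ℝ) ^ (2 * α - (1 + α))) atTop atTop :=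
      (tendsto_rpow_atTop (by linarith)).comp tendsto_natCast_atTop_atTop
    obtain ⟨m, hm1, hm2⟩ := ((hlim.eventually_gt_atTop (D / a)).and
      (eventually_ge_atTop 1)).exists
    have hm0 : (0 : ℝ) < m := by exact_mod_cast hm2
    have h1 := (h m).trans (hD m)
    have e1 : ((m : ℝ) ^ 2) ^ α = (m : ℝ) ^ (2 * α - (1 + α)) * (m : ℝ) ^ (1 + α) := by
      rw [← Real.rpow_add hm0, ← Real.rpow_natCast (m : ℝ) 2, ← Real.rpow_mul hm0.le]
      congr 1
      push_cast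
      ring
    rw [e1] at h1
    have h2 : 0 < (m : ℝ) ^ (1 + α) := Real.rpow_pos_of_pos hm0 _
    have h3 : D < a * (m : ℝ) ^ (2 * α - (1 + α)) := by
      rw [div_lt_iff₀ ha] at hm1
      linarith
    have h4 := mul_lt_mul_of_pos_right h3 h2
    linarith [mul_assoc a ((m : ℝ) ^ (2 * α - (1 + α))) ((m : ℝ) ^ (1 + α))]
  · intro h
    have hc' : (0 : ℝ) < c := by exact_mod_cast hc
    refine ⟨omegaMM K / 2, by linarith, 1 / c, by positivity, fun m => ?_⟩
    rcases Nat.eq_zero_or_pos m with hm | hm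
    · subst hm
      rw [Nat.cast_zero, zero_pow two_ne_zero, Real.zero_rpow (by linarith), mul_zero]
      exact Nat.cast_nonneg _
    · have hm0 : (0 : ℝ) < m := by exact_mod_cast hm
      have e1 : ((m : ℝ) ^ 2) ^ (omegaMM K / 2) = (m : ℝ) ^ omegaMM K := by
        rw [← Real.rpow_natCast (m : ℝ) 2, ← Real.rpow_mul hm0.le]
        congr 1
        push_cast
        ring
      have h1 := rpow_omega_le K m hm
      have h2 : (trank K m m m : ℝ) ≤ c * f m := by exact_mod_cast hf m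
      rw [e1, div_mul_eq_mul_div, one_mul, div_le_iff₀ hc']
      linarith

end Pool.Agent.W956.KF
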