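import Pool.Agent.W956.KF.OfCircuit2
import Pool.Agent.W956.KF.Part2

set_option autoImplicit false
set_option linter.unusedSectionVars false

/-!
# Circuits of bounded size for a single form: an ultraproduct argument
-/

namespace Pool.Agent.W956.KF

open Finset Pool.Agent.H53R3 Pool.Agent.H522R2 Pool.Agent.H522R2.Circuit MvPolynomial

/-- combinatorial data of a straight-line computation of length `N` for the form -/
abbrev Shp2 (m n p N : ℕ) : Type :=
  (Fin N → Bool) × (Fin N → Bool → Src (Fin N) ((Fin m × Fin n) ⊕ (Fin p × Fin m))) ×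
    Finset (Fin N × Bool) × Finset (Fin N) × Option (Fin N)

/-- there is a computation with the given combinatorial data -/
def Good2 (K : Type) [Field K] {m n p : ℕ} (B : Matrix (Fin n) (Fin p) K) (r : ℕ) {N : ℕ}
    (S : Shp2 m n p N) : Prop :=
  (∀ l b l', S.2.1 l b = Sum.inl l' → l' < l) ∧ 2 * S.2.2.2.1.card + 2 * S.2.2.1.card ≤ r ∧
  ∃ (κ : Fin N → Bool → K) (c : Fin N → K) (ℓ : Fin N → (Fin m × Fin n) ⊕ (Fin p × Fin m) → K)
    (q : Fin N → Fin m × Fin n → Fin p × Fin m → K),
    IsRun2 S.1 S.2.1 κ c ℓ q ∧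
    (∀ l b, S.1 l = true → (l, b) ∉ S.2.2.1 → ∀ x, vl ℓ (S.2.1 l (!b)) x = 0) ∧
    DeadG S.1 S.2.1 ℓ S.2.2.2.1 ∧
    ((∃ l, S.2.2.2.2 = some l ∧
      ∀ (x : Fin m × Fin n) (y : Fin p × Fin m), q l x y = if x.1 = y.2 then B x.2 y.1 else 0) ∨
      (S.2.2.2.2 = none ∧ ∀ (x : Fin m × Fin n) (y : Fin p × Fin m),
        (if x.1 = y.2 then B x.2 y.1 else 0) = 0))

section

variable {K : Type} [Field K] {m n p : ℕ}

theorem good2_rank {B : Matrix (Fin n) (Fin p) K} {r N : ℕ} {S : Shp2 m n p N}
    (h : Good2 K B r S) (D : Fin n → Fin p → K → K) (hD : ∀ j k, IsDer (D j k))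
    (hDB : ∀ j k j' k', D j k (B j' k') = if j' = j ∧ k' = k then 1 else 0) :
    RankLE K m n p r := by
  obtain ⟨hs, hr, κ, c, ℓ, q, hrun, hdead, hG, hout⟩ := h
  refine (run2_rank hrun hs S.2.2.1 S.2.2.2.1 hG B D hD hDB
    (fun j k l b h1 h2 => Or.inr (hdead l b h1 h2)) ?_).mono hr
  rcases hout with ⟨l, _, h1⟩ | ⟨_, h1⟩
  · exact Or.inl ⟨l, h1⟩
  · exact Or.inr h1

theorem vq_map {L L' : Type*} (e : L ≃ L') {X Y : Type} (q : L' → X → Y → K)
    (s : Src L' (X ⊕ Y)) (x : X) (y : Y) :
    vq (fun l => q (e l)) (Sum.map e.symm id s) x y = vq q s x y := by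
  rcases s with l | s
  · simp [vq]
  · rfl

open Classical in
theorem good2_of_circuit (C : Circuit K ((Fin m × Fin n) ⊕ (Fin p × Fin m)))
    (B : Matrix (Fin n) (Fin p) K)
    (hC : ∃ v : Fin C.nodes, C.poly v = form m B) {r : ℕ}
    (hr : 2 * scalarCount C + 6 * C.nonscalarCount ≤ r) :
    ∃ S : Shp2 m n p C.size, Good2 K B r S := by
  have hcard : Fintype.card {k : Fin C.nodes // IsGate C k} = C.size := by
    rw [← Nat.card_eq_fintype_card]
    rfl
  let e : Fin C.size ≃o {k : Fin C.nodes // IsGate C k} := monoEquivOfFin _ hcard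
  have hrun := isRun2_circuit C
  have hout := out_form C B hC
  let Λ : Finset (Fin C.size × Bool) := univ.filter fun t => Act C ((e t.1).1, t.2)
  let G : Finset (Fin C.size) := univ.filter fun l => C.IsNonscalar (e l).1
  have hΛ : Λ.card ≤ scalarCount C + 2 * C.nonscalarCount := by
    refine le_trans ?_ (card_act_le C)
    have h2 : Λ.card = Nat.card Λ := by simp
    rw [h2]
    apply Nat.card_le_card_of_injective (fun t : Λ =>
      (⟨((e t.1.1).1, t.1.2), (mem_filter.1 t.2).2⟩ : {t : Fin C.nodes × Bool // Act C t}))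
    rintro ⟨⟨g, b⟩, h⟩ ⟨⟨g', b'⟩, h'⟩ heq
    have h3 := congrArg Subtype.val heq
    simp only [Prod.mk.injEq] at h3
    obtain ⟨h4, h5⟩ := h3
    have h6 : g = g' := e.injective (Subtype.ext h4)
    subst h6
    subst h5
    rfl
  have hGc : G.card ≤ C.nonscalarCount := by
    have h2 : G.card = Nat.card G := by simp
    rw [h2]
    apply Nat.card_le_card_of_injective (fun t : G =>
      (⟨(e t.1).1, (mem_filter.1 t.2).2⟩ : {k : Fin C.nodes // C.IsNonscalar k}))
    rintro ⟨g, h⟩ ⟨g', h'⟩ heq
    have h3 := congrArg Subtype.val heq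
    simp only at h3
    have h6 : g = g' := e.injective (Subtype.ext h3)
    subst h6
    rfl
  refine ⟨(fun l => decide (∃ i j, C.gate (e l).1 = Gate.mul i j),
    fun l b => Sum.map e.symm id (srcOf C (opd C (e l).1 b)), Λ, G,
    if h : ∃ l : {k : Fin C.nodes // IsGate C k}, ∀ (x : Fin m × Fin n) (y : Fin p × Fin m),
      qq C l.1 x y = if x.1 = y.2 then B x.2 y.1 else 0 then some (e.symm h.choose) else none),
      ?_, ?_, fun l b => cst C (opd C (e l).1 b), fun l => cc C (e l).1, fun l => ll C (e l).1,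
      fun l => qq C (e l).1, ?_, ?_, ?_, ?_⟩
  · intro l b l' h
    simp only at h
    rcases hs : srcOf C (opd C (e l).1 b) with l1 | y
    · rw [hs] at h
      simp only [Sum.map_inl, Sum.inl.injEq] at h
      have h2 := srcOf_lt C (e l) b l1 hs
      rw [← h]
      exact (e.lt_iff_lt).1 (by simpa using h2)
    · rw [hs] at h
      simp at h
  · simp only
    omega
  · refine { toIsRun := ?_, qadd := ?_, qmul := ?_ }
    · constructor
      · intro l hl
        have := hrun.cadd (e l) hl
        exact this.trans (by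
          rw [← vc_map e.toEquiv, ← vc_map e.toEquiv (cst C (opd C (e l).1 true))]
          rfl)
      · intro l x hl
        have := hrun.ladd (e l) x hl
        exact this.trans (by
          rw [← vl_map e.toEquiv, ← vl_map e.toEquiv _ (srcOf C (opd C (e l).1 true))]
          rfl)
      · intro l hl
        have := hrun.cmul (e l) hl
        exact this.trans (by
          rw [← vc_map e.toEquiv, ← vc_map e.toEquiv (cst C (opd C (e l).1 true))]
          rfl)
      · intro l x hl
        have := hrun.lmul (e l) x hl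
        exact this.trans (by
          rw [← vl_map e.toEquiv _ (srcOf C (opd C (e l).1 false)),
            ← vl_map e.toEquiv _ (srcOf C (opd C (e l).1 true)),
            ← vc_map e.toEquiv, ← vc_map e.toEquiv (cst C (opd C (e l).1 true))]
          rfl)
    · intro l x y hl
      have := hrun.qadd (e l) x y hl
      exact this.trans (by
        rw [← vq_map e.toEquiv, ← vq_map e.toEquiv _ (srcOf C (opd C (e l).1 true))]
        rfl)
    · intro l x y hl
      have := hrun.qmul (e l) x y hl
      refine this.trans ?_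
      rw [← vc_map e.toEquiv, ← vc_map e.toEquiv (cst C (opd C (e l).1 true)),
        ← vq_map e.toEquiv _ (srcOf C (opd C (e l).1 false)),
        ← vq_map e.toEquiv _ (srcOf C (opd C (e l).1 true)),
        ← vl_map e.toEquiv _ (srcOf C (opd C (e l).1 false)) (Sum.inl x),
        ← vl_map e.toEquiv _ (srcOf C (opd C (e l).1 true)) (Sum.inl x),
        ← vl_map e.toEquiv _ (srcOf C (opd C (e l).1 false)) (Sum.inr y),
        ← vl_map e.toEquiv _ (srcOf C (opd C (e l).1 true)) (Sum.inr y)]
      rfl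
  · intro l b hl hnot x
    simp only [decide_eq_true_eq] at hl
    have h3 : ¬ Act C ((e l).1, b) := by
      intro h4
      exact hnot (by simp only [Λ, mem_filter, mem_univ, true_and]; exact h4)
    unfold Act at h3
    rw [not_and] at h3
    have h5 := h3 hl
    push Not at h5
    have h6 := vl_map e.toEquiv (fun l : {k : Fin C.nodes // IsGate C k} => ll C l.1)
      (srcOf C (opd C (e l).1 (!b))) x
    rw [vl_srcOf] at h6
    refine h6.trans ?_
    exact h5 x
  · intro l hl hnot x y
    simp only [decide_eq_true_eq] at hl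
    have h4 : ¬ C.IsNonscalar (e l).1 := by
      intro h5
      exact hnot (by simp only [G, mem_filter, mem_univ, true_and]; exact h5)
    have h6 := pp_eq_zero C (e l) hl h4 x y
    unfold pp at h6 ⊢
    refine Eq.trans ?_ h6
    rw [← vl_map e.toEquiv _ (srcOf C (opd C (e l).1 false)) (Sum.inl x),
        ← vl_map e.toEquiv _ (srcOf C (opd C (e l).1 true)) (Sum.inl x),
        ← vl_map e.toEquiv _ (srcOf C (opd C (e l).1 false)) (Sum.inr y),
        ← vl_map e.toEquiv _ (srcOf C (opd C (e l).1 true)) (Sum.inr y)]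
    rfl
  · simp only
    by_cases h : ∃ l : {k : Fin C.nodes // IsGate C k}, ∀ (x : Fin m × Fin n) (y : Fin p × Fin m),
      qq C l.1 x y = if x.1 = y.2 then B x.2 y.1 else 0
    · left
      refine ⟨e.symm h.choose, by rw [dif_pos h], fun x => ?_⟩
      rw [OrderIso.apply_symm_apply]
      exact h.choose_spec x
    · right
      refine ⟨by rw [dif_neg h], ?_⟩
      rcases hout with h1 | h1
      · exact absurd h1 h
      · exact h1

end

section

variable {K : Type} [Field K] {m n p : ℕ} {α : Type} {φ : Ultrafilter α}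

theorem vq_germ {L X Y : Type} (q : α → L → X → Y → K) (s : Src L (X ⊕ Y)) (x : X) (y : Y) :
    vq (fun l x y => ((fun H => q H l x y : α → K) : (φ : Filter α).Germ K)) s x y =
      ((fun H => vq (q H) s x y : α → K) : (φ : Filter α).Germ K) := by
  rcases s with l | s <;> rfl

theorem good2_germ (B : α → Matrix (Fin n) (Fin p) K) {r N : ℕ} {S : Shp2 m n p N}
    (h : ∀ᶠ H in (φ : Filter α), Good2 K (B H) r S) :
    Good2 ((φ : Filter α).Germ K) (Bst φ B) r S := by
  classical
  obtain ⟨H0, hH0⟩ := h.exists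
  have hex : ∀ H, ∃ (κ : Fin N → Bool → K) (c : Fin N → K)
      (ℓ : Fin N → (Fin m × Fin n) ⊕ (Fin p × Fin m) → K)
      (q : Fin N → Fin m × Fin n → Fin p × Fin m → K),
      Good2 K (B H) r S → IsRun2 S.1 S.2.1 κ c ℓ q ∧
    (∀ l b, S.1 l = true → (l, b) ∉ S.2.2.1 → ∀ x, vl ℓ (S.2.1 l (!b)) x = 0) ∧
    DeadG S.1 S.2.1 ℓ S.2.2.2.1 ∧
    ((∃ l, S.2.2.2.2 = some l ∧
      ∀ (x : Fin m × Fin n) (y : Fin p × Fin m), q l x y = if x.1 = y.2 then B H x.2 y.1 else 0) ∨
      (S.2.2.2.2 = none ∧ ∀ (x : Fin m × Fin n) (y : Fin p × Fin m),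
        (if x.1 = y.2 then B H x.2 y.1 else 0) = 0)) := by
    intro H
    by_cases hg : Good2 K (B H) r S
    · obtain ⟨_, _, κ, c, ℓ, q, h3⟩ := hg
      exact ⟨κ, c, ℓ, q, fun _ => h3⟩
    · exact ⟨0, 0, 0, 0, fun h3 => absurd h3 hg⟩
  choose κ c ℓ q hκ using hex
  have hz : (0 : (φ : Filter α).Germ K) = ((fun _ => 0 : α → K) : (φ : Filter α).Germ K) := rfl
  refine ⟨hH0.1, hH0.2.1, fun l b => ((fun H => κ H l b : α → K) : (φ : Filter α).Germ K),
    fun l => ((fun H => c H l : α → K) : (φ : Filter α).Germ K),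
    fun l x => ((fun H => ℓ H l x : α → K) : (φ : Filter α).Germ K),
    fun l x y => ((fun H => q H l x y : α → K) : (φ : Filter α).Germ K),
    { toIsRun := ⟨?_, ?_, ?_, ?_⟩, qadd := ?_, qmul := ?_ }, ?_, ?_, ?_⟩
  · intro l hl
    simp only [vc_germ (fun H => κ H l false) c, vc_germ (fun H => κ H l true) c]
    rw [← Filter.Germ.coe_add, Filter.Germ.coe_eq]
    exact h.mono fun H hH => (hκ H hH).1.cadd l hl
  · intro l x hl
    simp only [vl_germ ℓ]
    rw [← Filter.Germ.coe_add, Filter.Germ.coe_eq]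
    exact h.mono fun H hH => (hκ H hH).1.ladd l x hl
  · intro l hl
    simp only [vc_germ (fun H => κ H l false) c, vc_germ (fun H => κ H l true) c]
    rw [← Filter.Germ.coe_mul, Filter.Germ.coe_eq]
    exact h.mono fun H hH => (hκ H hH).1.cmul l hl
  · intro l x hl
    simp only [vl_germ ℓ, vc_germ (fun H => κ H l false) c, vc_germ (fun H => κ H l true) c]
    rw [← Filter.Germ.coe_mul, ← Filter.Germ.coe_mul, ← Filter.Germ.coe_add, Filter.Germ.coe_eq]
    exact h.mono fun H hH => (hκ H hH).1.lmul l x hl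
  · intro l x y hl
    simp only [vq_germ q]
    rw [← Filter.Germ.coe_add, Filter.Germ.coe_eq]
    exact h.mono fun H hH => (hκ H hH).1.qadd l x y hl
  · intro l x y hl
    simp only [vq_germ q, vl_germ ℓ, vc_germ (fun H => κ H l false) c,
      vc_germ (fun H => κ H l true) c]
    simp only [← Filter.Germ.coe_mul, ← Filter.Germ.coe_add]
    rw [Filter.Germ.coe_eq]
    exact h.mono fun H hH => (hκ H hH).1.qmul l x y hl
  · intro l b hl hnot x
    rw [vl_germ ℓ, hz, Filter.Germ.coe_eq]
    exact h.mono fun H hH => (hκ H hH).2.1 l b hl hnot x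
  · intro l hl hnot x y
    unfold pp
    simp only [vl_germ ℓ]
    simp only [← Filter.Germ.coe_mul, ← Filter.Germ.coe_add]
    rw [hz, Filter.Germ.coe_eq]
    exact h.mono fun H hH => (hκ H hH).2.2.1 l hl hnot x y
  · rcases hS : S.2.2.2.2 with _ | l
    · right
      refine ⟨rfl, fun x y => ?_⟩
      have h1 : ∀ᶠ H in (φ : Filter α), (if x.1 = y.2 then B H x.2 y.1 else 0) = 0 := by
        refine h.mono fun H hH => ?_
        rcases (hκ H hH).2.2.2 with ⟨l, hl, _⟩ | ⟨_, h2⟩
        · rw [hS] at hl; simp at hl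
        · exact h2 x y
      split_ifs with hx
      · rw [Bst, hz, Filter.Germ.coe_eq]
        refine h1.mono fun H hH => ?_
        rw [if_pos hx] at hH
        exact hH
      · rfl
    · left
      refine ⟨l, rfl, fun x y => ?_⟩
      have h1 : ∀ᶠ H in (φ : Filter α), q H l x y = if x.1 = y.2 then B H x.2 y.1 else 0 := by
        refine h.mono fun H hH => ?_
        rcases (hκ H hH).2.2.2 with ⟨l', hl, h2⟩ | ⟨h2, _⟩
        · rw [hS] at hl
          rw [Option.some_injective _ hl]
          exact h2 x y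
        · rw [hS] at h2; simp at h2
      split_ifs with hx
      · rw [Bst, Filter.Germ.coe_eq]
        refine h1.mono fun H hH => ?_
        simp only
        rw [hH, if_pos hx]
      · rw [hz, Filter.Germ.coe_eq]
        refine h1.mono fun H hH => ?_
        simp only
        rw [hH, if_neg hx]

end

theorem part_two_form (K : Type) [Field K] [CharZero K] (m n p s : ℕ) :
    ∃ H : MvPolynomial (Fin n × Fin p) ℚ, H ≠ 0 ∧ ∀ B : Matrix (Fin n) (Fin p) K,
      aeval (fun x : Fin n × Fin p => B x.1 x.2) H ≠ 0 →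
      ∀ C : Circuit K ((Fin m × Fin n) ⊕ (Fin p × Fin m)),
        (∃ v : Fin C.nodes, C.poly v = form m B) → C.size ≤ s →
        trank K m n p ≤ 2 * scalarCount C + 6 * C.nonscalarCount := by
  classical
  by_contra hcon
  push Not at hcon
  have hcon' : ∀ H : NZ (Fin n × Fin p), ∃ B : Matrix (Fin n) (Fin p) K,
      aeval (fun x : Fin n × Fin p => B x.1 x.2) H.1 ≠ 0 ∧
        ∃ C : Circuit K ((Fin m × Fin n) ⊕ (Fin p × Fin m)),
        (∃ v : Fin C.nodes, C.poly v = form m B) ∧ C.size ≤ s ∧
          2 * scalarCount C + 6 * C.nonscalarCount < trank K m n p := fun H => hcon H.1 H.2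
  choose B hB C hC hs hw using hcon'
  obtain ⟨φ, hφ⟩ := exists_ultrafilter (Fin n × Fin p)
  have hpos : 1 ≤ trank K m n p := Nat.one_le_of_lt (hw ⟨1, one_ne_zero⟩)
  set r := trank K m n p - 1 with hr
  have hgood : ∀ H, ∃ x : Σ N : Fin (s + 1), Shp2 m n p N, Good2 K (B H) r x.2 := by
    intro H
    obtain ⟨S, hS⟩ := good2_of_circuit (C H) (B H) (hC H) (r := r) (by have := hw H; omega)
    exact ⟨⟨⟨(C H).size, by have := hs H; omega⟩, S⟩, hS⟩
  have hex : ∃ x : Σ N : Fin (s + 1), Shp2 m n p N,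
      ∀ᶠ H in (φ : Filter _), Good2 K (B H) r x.2 := by
    by_contra hno
    rw [not_exists] at hno
    have h1 : ∀ x : Σ N : Fin (s + 1), Shp2 m n p N,
        ∀ᶠ H in (φ : Filter (NZ (Fin n × Fin p))), ¬ Good2 K (B H) r x.2 := by
      intro x
      rw [Ultrafilter.eventually_not]
      exact hno x
    have h2 : ∀ᶠ H in (φ : Filter (NZ (Fin n × Fin p))),
        ∀ x : Σ N : Fin (s + 1), Shp2 m n p N, ¬ Good2 K (B H) r x.2 :=
      Filter.eventually_all.2 h1
    obtain ⟨H, hH⟩ := h2.exists
    obtain ⟨x, hx⟩ := hgood H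
    exact hH x hx
  obtain ⟨x, hx⟩ := hex
  have hG := good2_germ B hx
  have hind : AlgebraicIndependent ℚ
      (fun y : Fin n × Fin p => Bst φ B y.1 y.2) := by
    rw [algebraicIndependent_iff]
    intro G hG0
    by_contra hne
    have h1 := aeval_germ φ (fun (y : Fin n × Fin p) H => B H y.1 y.2) G
    have h2 : aeval (fun y : Fin n × Fin p => Bst φ B y.1 y.2) G =
        ((fun H => aeval (fun y : Fin n × Fin p => B H y.1 y.2) G : _ → K) :
          (φ : Filter (NZ (Fin n × Fin p))).Germ K) := h1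
    rw [hG0] at h2
    have h3 : (0 : (φ : Filter (NZ (Fin n × Fin p))).Germ K) =
        ((fun _ => 0 : NZ (Fin n × Fin p) → K) : (φ : Filter (NZ (Fin n × Fin p))).Germ K) := rfl
    rw [h3, Filter.Germ.coe_eq] at h2
    obtain ⟨H, h4, h5⟩ := (h2.and (hφ ⟨G, hne⟩)).exists
    obtain ⟨Q, hQ⟩ := h5
    apply hB H
    simp only at h4
    rw [hQ, map_mul]
    simp only
    rw [← h4, zero_mul]
  choose D hD hDk hDB using fun i : Fin n × Fin p => exists_der hind i
  have hR := good2_rank hG (fun j k => D (j, k)) (fun j k => hD (j, k)) (by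
    intro j k j' k'
    have := hDB (j, k) (j', k')
    simp only [Prod.mk.injEq] at this
    exact this)
  have := trank_le (rank_germ hR)
  omega

end Pool.Agent.W956.KF
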