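import Pool.Agent.W956.KF.Growth
import Pool.Agent.W956.KF.Germ2

set_option autoImplicit false
set_option linter.unusedSectionVars false

/-!
# Integer matrices as known factors
-/

namespace Pool.Agent.W956.KF

open Finset Pool.Agent.H826R3.SM Pool.Agent.H522R2 Pool.Agent.H522R2.Circuit

/-- A nonzero polynomial has an integer point at which it does not vanish, over every field of
characteristic 0. -/
theorem exists_int_point {σ : Type} [Finite σ] {H : MvPolynomial σ ℚ} (hH : H ≠ 0) :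
    ∃ b : σ → ℤ, ∀ (K : Type) [Field K] [CharZero K],
      MvPolynomial.aeval (fun x => ((b x : ℤ) : K)) H ≠ 0 := by
  have h1 : ∃ b : σ → ℚ, (∀ x, b x ∈ Set.range ((↑) : ℤ → ℚ)) ∧ MvPolynomial.eval b H ≠ 0 := by
    by_contra hcon
    push Not at hcon
    apply hH
    refine MvPolynomial.funext_set (fun _ => Set.range ((↑) : ℤ → ℚ))
      (fun _ => Set.infinite_range_of_injective Int.cast_injective) fun x hx => ?_
    rw [map_zero]
    exact hcon x fun i => hx i (Set.mem_univ i)
  obtain ⟨b, hb, hne⟩ := h1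
  choose z hz using hb
  refine ⟨z, fun K _ _ h0 => hne ?_⟩
  have h2 := MvPolynomial.aeval_algebraMap_apply (B := K) (fun x => b x) H
  have h3 : (fun x => ((z x : ℤ) : K)) = fun x => algebraMap ℚ K (b x) := by
    funext x
    rw [← hz x]
    simp
  rw [h3] at h0
  have h4 : (algebraMap ℚ K) (MvPolynomial.eval b H) = 0 := by
    rw [← h0]
    exact h2.symm
  exact (map_eq_zero _).1 h4

/-- Integer matrices which are as hard as generic matrices for circuits of bounded size. -/
theorem exists_int_matrix (K : Type) [Field K] [CharZero K] (m n p s : ℕ) :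
    ∃ B : Matrix (Fin n) (Fin p) ℤ,
      (∀ C : Circuit K (Fin m × Fin n), ComputesKnown C (B.map (fun z => ((z : ℤ) : K))) →
        C.size ≤ s → trank K m n p ≤ scalarCount C + 2 * C.nonscalarCount) ∧
      (∀ C : Circuit K ((Fin m × Fin n) ⊕ (Fin p × Fin m)),
        (∃ v : Fin C.nodes, C.poly v = form m (B.map (fun z => ((z : ℤ) : K)))) →
        C.size ≤ s → trank K m n p ≤ 2 * scalarCount C + 6 * C.nonscalarCount) := by
  obtain ⟨H1, hH1, h1⟩ := part_two K m n p s
  obtain ⟨H2, hH2, h2⟩ := part_two_form K m n p s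
  obtain ⟨b, hb⟩ := exists_int_point (mul_ne_zero hH1 hH2)
  refine ⟨Matrix.of fun j k => b (j, k), fun C hC hs => h1 _ ?_ C hC hs,
    fun C hC hs => h2 _ ?_ C hC hs⟩
  · intro h0
    apply hb K
    rw [map_mul]
    have : (MvPolynomial.aeval fun x => ((b x : ℤ) : K)) H1 = 0 := h0
    rw [this, zero_mul]
  · intro h0
    apply hb K
    rw [map_mul]
    have : (MvPolynomial.aeval fun x => ((b x : ℤ) : K)) H2 = 0 := h0
    rw [this, mul_zero]

theorem weight_le_size {K V : Type} [Field K] (C : Circuit K V) :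
    scalarCount C + C.nonscalarCount ≤ C.size :=
  (scalar_add_le C).trans C.mulCount_le_size

/-- the hard integer matrices -/
theorem exists_hard (K : Type) [Field K] [CharZero K] (m : ℕ) :
    ∃ B : Matrix (Fin m) (Fin m) ℤ,
      trank K m m m ≤ 2 * sizeKnown m (B.map (fun z => ((z : ℤ) : K))) ∧
      trank K m m m ≤ 6 * sizeForm m (B.map (fun z => ((z : ℤ) : K))) := by
  obtain ⟨B, h1, h2⟩ := exists_int_matrix K m m m (trank K m m m)
  refine ⟨B, ?_, ?_⟩
  · obtain ⟨C, hC, hs⟩ := exists_circuit_known (B.map (fun z => ((z : ℤ) : K)))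
    have h3 := weight_le_size C
    rcases le_or_gt C.size (trank K m m m) with h | h
    · have := h1 C hC h
      omega
    · omega
  · obtain ⟨C, hC, hs⟩ := exists_circuit_form (B.map (fun z => ((z : ℤ) : K)))
    have h3 := weight_le_size C
    rcases le_or_gt C.size (trank K m m m) with h | h
    · have := h2 C hC h
      omega
    · omega

/-- **Part 3.** -/
theorem part_three (K : Type) [Field K] [CharZero K] :
    ∃ B : ∀ m : ℕ, Matrix (Fin m) (Fin m) ℤ,
      (∀ m, trank K m m m ≤ 2 * sizeKnown m ((B m).map (fun z => ((z : ℤ) : K))) ∧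
        trank K m m m ≤ 6 * sizeForm m ((B m).map (fun z => ((z : ℤ) : K))) ∧
        sizeForm m ((B m).map (fun z => ((z : ℤ) : K))) ≤
          sizeKnown m ((B m).map (fun z => ((z : ℤ) : K))) + 2 * m ^ 2 ∧
        sizeKnown m ((B m).map (fun z => ((z : ℤ) : K))) ≤ sizeMM K m) ∧
      growth (fun m => sizeForm m ((B m).map (fun z => ((z : ℤ) : K)))) = omegaMM K ∧
      growth (fun m => sizeKnown m ((B m).map (fun z => ((z : ℤ) : K)))) = omegaMM K ∧
      growth (sizeMM K) = omegaMM K ∧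
      (Superlinear (sizeMM K) ↔
        Superlinear (fun m => sizeForm m ((B m).map (fun z => ((z : ℤ) : K))))) ∧
      (Superlinear (sizeMM K) ↔
        Superlinear (fun m => sizeKnown m ((B m).map (fun z => ((z : ℤ) : K))))) ∧
      (Superlinear (sizeMM K) ↔ 2 < omegaMM K) ∧
      (∀ τ D : ℝ, {m : ℕ | (sizeForm m ((B m).map (fun z => ((z : ℤ) : K))) : ℝ) ≤
        D * (m : ℝ) ^ τ}.Infinite → omegaMM K ≤ τ) := by
  choose B h1 h2 using exists_hard K
  have hk : ∀ m, sizeKnown m ((B m).map (fun z => ((z : ℤ) : K))) ≤ sizeMM K m :=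
    fun m => sizeKnown_le_sizeMM _
  have hf : ∀ m, sizeForm m ((B m).map (fun z => ((z : ℤ) : K))) ≤
      sizeKnown m ((B m).map (fun z => ((z : ℤ) : K))) + 2 * m ^ 2 :=
    fun m => sizeForm_le_sizeKnown _
  have hf5 : ∀ m, sizeForm m ((B m).map (fun z => ((z : ℤ) : K))) ≤ 5 * sizeMM K m := by
    intro m
    have h3 := hf m
    have h4 := hk m
    have h5 := sq_le_trank K m
    have h6 := h1 m
    omega
  have hmm : ∀ m, trank K m m m ≤ 2 * sizeMM K m := by
    intro m
    have h3 := hk m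
    have h4 := h1 m
    omega
  have upM : ∀ τ, omegaMM K < τ → ∃ D : ℝ, ∀ m : ℕ, (sizeMM K m : ℝ) ≤ D * (m : ℝ) ^ τ :=
    fun τ hτ => sizeMM_upper hτ
  have upK : ∀ τ, omegaMM K < τ → ∃ D : ℝ, ∀ m : ℕ,
      (sizeKnown m ((B m).map (fun z => ((z : ℤ) : K))) : ℝ) ≤ D * (m : ℝ) ^ τ := by
    intro τ hτ
    obtain ⟨D, hD⟩ := upM τ hτ
    refine ⟨D, fun m => le_trans ?_ (hD m)⟩
    exact_mod_cast hk m
  have upF : ∀ τ, omegaMM K < τ → ∃ D : ℝ, ∀ m : ℕ,
      (sizeForm m ((B m).map (fun z => ((z : ℤ) : K))) : ℝ) ≤ D * (m : ℝ) ^ τ := by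
    intro τ hτ
    obtain ⟨D, hD⟩ := upM τ hτ
    refine ⟨5 * D, fun m => ?_⟩
    have h3 : (sizeForm m ((B m).map (fun z => ((z : ℤ) : K))) : ℝ) ≤ 5 * (sizeMM K m : ℝ) := by
      exact_mod_cast hf5 m
    have h4 := hD m
    linarith [mul_assoc (5 : ℝ) D ((m : ℝ) ^ τ)]
  have sM := superlinear_iff (K := K) (f := sizeMM K) (c := 2) (by norm_num) hmm upM
  have sK := superlinear_iff (K := K)
    (f := fun m => sizeKnown m ((B m).map (fun z => ((z : ℤ) : K)))) (c := 2) (by norm_num)
    h1 upK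
  have sF := superlinear_iff (K := K)
    (f := fun m => sizeForm m ((B m).map (fun z => ((z : ℤ) : K)))) (c := 6) (by norm_num)
    h2 upF
  refine ⟨B, fun m => ⟨h1 m, h2 m, hf m, hk m⟩, growth_eq h2 upF, growth_eq h1 upK,
    growth_eq hmm upM, sM.trans sF.symm, sM.trans sK.symm, sM, fun τ D h => ?_⟩
  exact omega_le_of_infinite h2 h

end Pool.Agent.W956.KF
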