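import Pool.Agent.W956.KF.Part1

set_option autoImplicit false
set_option linter.unusedSectionVars false

/-!
# Circuits of bounded size: an ultraproduct argument
-/

namespace Pool.Agent.W956.KF

open Finset Pool.Agent.H53R3 Pool.Agent.H522R2 Pool.Agent.H522R2.Circuit MvPolynomial

/-- combinatorial data of a straight-line computation of length `N` for the product of the generic
`m × n` matrix with a constant `n × p` matrix -/
abbrev Shp (m n p N : ℕ) : Type :=
  (Fin N → Bool) × (Fin N → Bool → Src (Fin N) (Fin m × Fin n)) × Finset (Fin N × Bool) ×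
    (Fin m → Fin p → Option (Fin N))

/-- there is a computation with the given combinatorial data -/
def Good (K : Type) [Field K] {m n p : ℕ} (B : Matrix (Fin n) (Fin p) K) (r : ℕ) {N : ℕ}
    (S : Shp m n p N) : Prop :=
  (∀ l b l', S.2.1 l b = Sum.inl l' → l' < l) ∧ S.2.2.1.card ≤ r ∧
  ∃ (κ : Fin N → Bool → K) (c : Fin N → K) (ℓ : Fin N → Fin m × Fin n → K),
    IsRun S.1 S.2.1 κ c ℓ ∧
    (∀ l b, S.1 l = true → (l, b) ∉ S.2.2.1 → ∀ x, vl ℓ (S.2.1 l (!b)) x = 0) ∧
    (∀ i k, (∃ l, S.2.2.2 i k = some l ∧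
      ∀ x : Fin m × Fin n, ℓ l x = if x.1 = i then B x.2 k else 0) ∨
      (S.2.2.2 i k = none ∧ ∀ j, B j k = 0 ∨ B j k = 1))

section

variable {K : Type} [Field K] {m n p : ℕ}

theorem good_rank {B : Matrix (Fin n) (Fin p) K} {r N : ℕ} {S : Shp m n p N}
    (h : Good K B r S) (D : Fin n → Fin p → K → K) (hD : ∀ j k, IsDer (D j k))
    (hDB : ∀ j k j' k', D j k (B j' k') = if j' = j ∧ k' = k then 1 else 0) :
    RankLE K m n p r := by
  obtain ⟨hs, hr, κ, c, ℓ, hrun, hdead, hout⟩ := h
  refine (run_rank hrun hs S.2.2.1 B D hD hDB (fun j k l b h1 h2 => Or.inr (hdead l b h1 h2))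
    (fun i k => ?_)).mono hr
  rcases hout i k with ⟨l, _, h1⟩ | ⟨_, h1⟩
  · exact Or.inl ⟨l, h1⟩
  · exact Or.inr h1

theorem vc_map {L L' : Type*} (e : L ≃ L') {X : Type*} (κ : K) (c : L' → K) (s : Src L' X) :
    vc κ (fun l => c (e l)) (Sum.map e.symm id s) = vc κ c s := by
  rcases s with l | _ | x
  · simp [vc]
  · rfl
  · rfl

theorem vl_map {L L' : Type*} (e : L ≃ L') {X : Type*} (ℓ : L' → X → K) (s : Src L' X) (x : X) :
    vl (fun l => ℓ (e l)) (Sum.map e.symm id s) x = vl ℓ s x := by
  rcases s with l | _ | x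
  · simp [vl]
  · rfl
  · rfl

open Classical in
theorem good_of_circuit (C : Circuit K (Fin m × Fin n)) (B : Matrix (Fin n) (Fin p) K)
    (hC : ComputesKnown C B) {r : ℕ} (hr : scalarCount C + 2 * C.nonscalarCount ≤ r) :
    ∃ S : Shp m n p C.size, Good K B r S := by
  have hcard : Fintype.card {k : Fin C.nodes // IsGate C k} = C.size := by
    rw [← Nat.card_eq_fintype_card]
    rfl
  let e : Fin C.size ≃o {k : Fin C.nodes // IsGate C k} := monoEquivOfFin _ hcard
  have hrun := isRun_circuit C
  have hout := out_circuit C B hC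
  let Λ : Finset (Fin C.size × Bool) := univ.filter fun t => Act C ((e t.1).1, t.2)
  refine ⟨(fun l => decide (∃ i j, C.gate (e l).1 = Gate.mul i j),
    fun l b => Sum.map e.symm id (srcOf C (opd C (e l).1 b)), Λ,
    fun i k => if h : ∃ l : {k : Fin C.nodes // IsGate C k}, ∀ x : Fin m × Fin n,
      ll C l.1 x = if x.1 = i then B x.2 k else 0 then some (e.symm h.choose) else none), ?_, ?_,
      fun l b => cst C (opd C (e l).1 b), fun l => cc C (e l).1, fun l => ll C (e l).1, ?_, ?_, ?_⟩
  · intro l b l' h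
    simp only at h
    rcases hs : srcOf C (opd C (e l).1 b) with l1 | y
    · rw [hs] at h
      simp only [Sum.map_inl, Sum.inl.injEq] at h
      have h2 := srcOf_lt C (e l) b l1 hs
      rw [← h]
      exact (e.lt_iff_lt).1 (by simpa using h2)
    · rw [hs] at h
      simp at h
  · refine le_trans ?_ ((card_act_le C).trans hr)
    have h2 : Λ.card = Nat.card Λ := by simp
    simp only
    rw [h2]
    apply Nat.card_le_card_of_injective (fun t : Λ =>
      (⟨((e t.1.1).1, t.1.2), (mem_filter.1 t.2).2⟩ : {t : Fin C.nodes × Bool // Act C t}))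
    rintro ⟨⟨g, b⟩, h⟩ ⟨⟨g', b'⟩, h'⟩ heq
    have h3 := congrArg Subtype.val heq
    simp only [Prod.mk.injEq] at h3
    obtain ⟨h4, h5⟩ := h3
    have h6 : g = g' := e.injective (Subtype.ext h4)
    subst h6
    subst h5
    rfl
  · constructor
    · intro l hl
      have := hrun.cadd (e l) hl
      exact this.trans (by
        rw [← vc_map e.toEquiv, ← vc_map e.toEquiv (cst C (opd C (e l).1 true))]
        rfl)
    · intro l x hl
      have := hrun.ladd (e l) x hl
      exact this.trans (by
        rw [← vl_map e.toEquiv, ← vl_map e.toEquiv _ (srcOf C (opd C (e l).1 true))]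
        rfl)
    · intro l hl
      have := hrun.cmul (e l) hl
      exact this.trans (by
        rw [← vc_map e.toEquiv, ← vc_map e.toEquiv (cst C (opd C (e l).1 true))]
        rfl)
    · intro l x hl
      have := hrun.lmul (e l) x hl
      exact this.trans (by
        rw [← vl_map e.toEquiv _ (srcOf C (opd C (e l).1 false)),
          ← vl_map e.toEquiv _ (srcOf C (opd C (e l).1 true)),
          ← vc_map e.toEquiv, ← vc_map e.toEquiv (cst C (opd C (e l).1 true))]
        rfl)
  · intro l b hl hnot x
    simp only [decide_eq_true_eq] at hl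
    have h3 : ¬ Act C ((e l).1, b) := by
      intro h4
      exact hnot (by simp only [Λ, mem_filter, mem_univ, true_and]; exact h4)
    unfold Act at h3
    rw [not_and] at h3
    have h5 := h3 hl
    push Not at h5
    have h6 := vl_map e.toEquiv (fun l : {k : Fin C.nodes // IsGate C k} => ll C l.1)
      (srcOf C (opd C (e l).1 (!b))) x
    rw [vl_srcOf] at h6
    refine h6.trans ?_
    exact h5 x
  · intro i k
    simp only
    by_cases h : ∃ l : {k : Fin C.nodes // IsGate C k}, ∀ x : Fin m × Fin n,
      ll C l.1 x = if x.1 = i then B x.2 k else 0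
    · left
      refine ⟨e.symm h.choose, by rw [dif_pos h], fun x => ?_⟩
      rw [OrderIso.apply_symm_apply]
      exact h.choose_spec x
    · right
      refine ⟨by rw [dif_neg h], ?_⟩
      rcases hout i k with h1 | h1
      · exact absurd h1 h
      · exact h1

end

section

variable {K : Type} [Field K] {m n p : ℕ} {α : Type} {φ : Ultrafilter α}

theorem vc_germ {L X : Type} (κ : α → K) (c : α → L → K) (s : Src L X) :
    vc ((κ : α → K) : (φ : Filter α).Germ K) (fun l => ((fun H => c H l : α → K) :
      (φ : Filter α).Germ K)) s = ((fun H => vc (κ H) (c H) s : α → K) : (φ : Filter α).Germ K) := by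
  rcases s with l | _ | x <;> rfl

theorem vl_germ {L X : Type} (ℓ : α → L → X → K) (s : Src L X) (x : X) :
    vl (fun l x => ((fun H => ℓ H l x : α → K) : (φ : Filter α).Germ K)) s x =
      ((fun H => vl (ℓ H) s x : α → K) : (φ : Filter α).Germ K) := by
  classical
  rcases s with l | _ | y
  · rfl
  · rfl
  · simp only [vl, Pi.single_apply]
    split_ifs <;> rfl

/-- the matrix of germs -/
def Bst (φ : Ultrafilter α) (B : α → Matrix (Fin n) (Fin p) K) :
    Matrix (Fin n) (Fin p) ((φ : Filter α).Germ K) :=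
  fun j k => ((fun H => B H j k : α → K) : (φ : Filter α).Germ K)

theorem good_germ (B : α → Matrix (Fin n) (Fin p) K) {r N : ℕ} {S : Shp m n p N}
    (h : ∀ᶠ H in (φ : Filter α), Good K (B H) r S) :
    Good ((φ : Filter α).Germ K) (Bst φ B) r S := by
  classical
  obtain ⟨H0, hH0⟩ := h.exists
  have hex : ∀ H, ∃ (κ : Fin N → Bool → K) (c : Fin N → K) (ℓ : Fin N → Fin m × Fin n → K),
      Good K (B H) r S → IsRun S.1 S.2.1 κ c ℓ ∧
    (∀ l b, S.1 l = true → (l, b) ∉ S.2.2.1 → ∀ x, vl ℓ (S.2.1 l (!b)) x = 0) ∧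
    (∀ i k, (∃ l, S.2.2.2 i k = some l ∧
      ∀ x : Fin m × Fin n, ℓ l x = if x.1 = i then B H x.2 k else 0) ∨
      (S.2.2.2 i k = none ∧ ∀ j, B H j k = 0 ∨ B H j k = 1)) := by
    intro H
    by_cases hg : Good K (B H) r S
    · obtain ⟨_, _, κ, c, ℓ, h3⟩ := hg
      exact ⟨κ, c, ℓ, fun _ => h3⟩
    · exact ⟨0, 0, 0, fun h3 => absurd h3 hg⟩
  choose κ c ℓ hκ using hex
  refine ⟨hH0.1, hH0.2.1, fun l b => ((fun H => κ H l b : α → K) : (φ : Filter α).Germ K),
    fun l => ((fun H => c H l : α → K) : (φ : Filter α).Germ K),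
    fun l x => ((fun H => ℓ H l x : α → K) : (φ : Filter α).Germ K), ⟨?_, ?_, ?_, ?_⟩, ?_, ?_⟩
  · intro l hl
    simp only [vc_germ (fun H => κ H l false) c, vc_germ (fun H => κ H l true) c]
    rw [← Filter.Germ.coe_add, Filter.Germ.coe_eq]
    exact h.mono fun H hH => (hκ H hH).1.cadd l hl
  · intro l x hl
    simp only [vl_germ ℓ]
    rw [← Filter.Germ.coe_add, Filter.Germ.coe_eq]
    exact h.mono fun H hH => (hκ H hH).1.ladd l x hl
  · intro l hl
    simp only [vc_germ (fun H => κ H l false) c, vc_germ (fun H => κ H l true) c]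
    rw [← Filter.Germ.coe_mul, Filter.Germ.coe_eq]
    exact h.mono fun H hH => (hκ H hH).1.cmul l hl
  · intro l x hl
    simp only [vl_germ ℓ, vc_germ (fun H => κ H l false) c, vc_germ (fun H => κ H l true) c]
    rw [← Filter.Germ.coe_mul, ← Filter.Germ.coe_mul, ← Filter.Germ.coe_add, Filter.Germ.coe_eq]
    exact h.mono fun H hH => (hκ H hH).1.lmul l x hl
  · intro l b hl hnot x
    rw [vl_germ ℓ]
    have : (0 : (φ : Filter α).Germ K) = ((fun _ => 0 : α → K) : (φ : Filter α).Germ K) := rfl
    rw [this, Filter.Germ.coe_eq]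
    exact h.mono fun H hH => (hκ H hH).2.1 l b hl hnot x
  · intro i k
    rcases hS : S.2.2.2 i k with _ | l
    · right
      refine ⟨rfl, fun j => ?_⟩
      have h1 : ∀ᶠ H in (φ : Filter α), B H j k = 0 ∨ B H j k = 1 := by
        refine h.mono fun H hH => ?_
        rcases (hκ H hH).2.2 i k with ⟨l, hl, _⟩ | ⟨_, h2⟩
        · rw [hS] at hl; simp at hl
        · exact h2 j
      rw [Ultrafilter.eventually_or] at h1
      rcases h1 with h1 | h1
      · left
        have : (0 : (φ : Filter α).Germ K) = ((fun _ => 0 : α → K) : (φ : Filter α).Germ K) := rfl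
        rw [Bst, this, Filter.Germ.coe_eq]
        exact h1
      · right
        have : (1 : (φ : Filter α).Germ K) = ((fun _ => 1 : α → K) : (φ : Filter α).Germ K) := rfl
        rw [Bst, this, Filter.Germ.coe_eq]
        exact h1
    · left
      refine ⟨l, rfl, fun x => ?_⟩
      have h1 : ∀ᶠ H in (φ : Filter α), ℓ H l x = if x.1 = i then B H x.2 k else 0 := by
        refine h.mono fun H hH => ?_
        rcases (hκ H hH).2.2 i k with ⟨l', hl, h2⟩ | ⟨h2, _⟩
        · rw [hS] at hl
          rw [Option.some_injective _ hl]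
          exact h2 x
        · rw [hS] at h2; simp at h2
      split_ifs with hx
      · rw [Bst, Filter.Germ.coe_eq]
        refine h1.mono fun H hH => ?_
        simp only
        rw [hH, if_pos hx]
      · have : (0 : (φ : Filter α).Germ K) = ((fun _ => 0 : α → K) : (φ : Filter α).Germ K) := rfl
        rw [this, Filter.Germ.coe_eq]
        refine h1.mono fun H hH => ?_
        simp only
        rw [hH, if_neg hx]

theorem rank_germ {r : ℕ} (h : RankLE ((φ : Filter α).Germ K) m n p r) : RankLE K m n p r := by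
  classical
  obtain ⟨U, V, W, h⟩ := h
  have hrep : ∀ x : (φ : Filter α).Germ K, ∃ f : α → K, (f : (φ : Filter α).Germ K) = x :=
    fun x => Quot.exists_rep x
  choose U' hU' using fun l i j => hrep (U l i j)
  choose V' hV' using fun l i j => hrep (V l i j)
  choose W' hW' using fun l i j => hrep (W l i j)
  have hev : ∀ i i' j j' k k', ∀ᶠ H in (φ : Filter α),
      ∑ l, U' l i j H * V' l j' k H * W' l i' k' H =
        if i = i' ∧ j = j' ∧ k = k' then 1 else 0 := by
    intro i i' j j' k k'
    have h1 := h i i' j j' k k'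
    have h2 : (∑ l, U l i j * V l j' k * W l i' k') =
        ((fun H => ∑ l, U' l i j H * V' l j' k H * W' l i' k' H : α → K) :
          (φ : Filter α).Germ K) := by
      have h3 : (fun H => ∑ l, U' l i j H * V' l j' k H * W' l i' k' H : α → K) =
          ∑ l, U' l i j * V' l j' k * W' l i' k' := by
        funext H
        simp
      rw [h3]
      have h4 := map_sum (Filter.Germ.coeRingHom (R := K) (φ : Filter α))
        (fun l => U' l i j * V' l j' k * W' l i' k') univ
      simp only [Filter.Germ.coe_coeRingHom] at h4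
      refine Eq.trans ?_ h4.symm
      refine Finset.sum_congr rfl fun l _ => ?_
      rw [← hU', ← hV', ← hW', ← Filter.Germ.coe_mul, ← Filter.Germ.coe_mul]
    rw [h2] at h1
    have h5 : (if i = i' ∧ j = j' ∧ k = k' then (1 : (φ : Filter α).Germ K) else 0) =
        ((fun _ => if i = i' ∧ j = j' ∧ k = k' then 1 else 0 : α → K) :
          (φ : Filter α).Germ K) := by
      split_ifs <;> rfl
    rw [h5, Filter.Germ.coe_eq] at h1
    exact h1
  have hall : ∀ᶠ H in (φ : Filter α), ∀ i i' j j' k k',
      ∑ l, U' l i j H * V' l j' k H * W' l i' k' H =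
        if i = i' ∧ j = j' ∧ k = k' then 1 else 0 := by
    simp only [Filter.eventually_all]
    exact hev
  obtain ⟨H, hH⟩ := hall.exists
  exact ⟨fun l i j => U' l i j H, fun l i j => V' l i j H, fun l i j => W' l i j H, hH⟩

end

end Pool.Agent.W956.KF
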